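import Mathlib

/-!
Comparison of `∑ l |l|` by `∑ arctan (l / t)`.
-/

namespace Pool.Agent.Q105.SqE

open Real Filter Topology Set Finset

theorem arctan_le_self {s : ℝ} (hs : 0 ≤ s) : arctan s ≤ s := by
  have h1 : Monotone fun x : ℝ => x - arctan x := by
    refine monotone_of_deriv_nonneg (differentiable_id.sub differentiable_arctan) fun x => ?_
    have h2 : HasDerivAt (fun x : ℝ => x - arctan x) (1 - 1 / (1 + x ^ 2)) x :=
      (hasDerivAt_id x).sub (hasDerivAt_arctan x)
    rw [h2.deriv, sub_nonneg, div_le_one (by positivity)]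
    nlinarith [sq_nonneg x]
  have := h1 hs
  simp only [arctan_zero, sub_zero] at this
  linarith

theorem self_sub_le_arctan {s : ℝ} (hs : 0 ≤ s) : s - s ^ 3 ≤ arctan s := by
  have h1 : Monotone fun x : ℝ => x ^ 3 + arctan x - x := by
    refine monotone_of_deriv_nonneg
      (((differentiable_pow 3).add differentiable_arctan).sub differentiable_id) fun x => ?_
    have h2 : HasDerivAt (fun x : ℝ => x ^ 3 + arctan x - x) (3 * x ^ 2 + 1 / (1 + x ^ 2) - 1) x := by
      have := ((hasDerivAt_pow 3 x).fun_add (hasDerivAt_arctan x)).fun_sub (hasDerivAt_id' x)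
      exact this.congr_deriv (by norm_num)
    rw [h2.deriv]
    have h3 : (0 : ℝ) < 1 + x ^ 2 := by positivity
    have h4 : 3 * x ^ 2 + 1 / (1 + x ^ 2) - 1 = (2 * x ^ 2 + 3 * x ^ 4) / (1 + x ^ 2) := by
      field_simp
      ring
    rw [h4]
    positivity
  have := h1 hs
  simp only [arctan_zero] at this
  linarith

theorem abs_arctan_sub (s : ℝ) : |arctan s - s| ≤ |s| ^ 3 := by
  rcases le_total 0 s with hs | hs
  · rw [abs_of_nonneg hs, abs_le]
    have h1 := arctan_le_self hs
    have h2 := self_sub_le_arctan hs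
    have h3 : 0 ≤ s ^ 3 := by positivity
    constructor <;> linarith
  · rw [abs_of_nonpos hs, abs_le]
    have hs' : 0 ≤ -s := by linarith
    have h1 := arctan_le_self hs'
    have h2 := self_sub_le_arctan hs'
    have h3 : 0 ≤ (-s) ^ 3 := by positivity
    rw [arctan_neg] at h1 h2
    constructor <;> linarith

/-- an antiderivative of `t arctan (l / t)` -/
noncomputable def an (l t : ℝ) : ℝ := t ^ 2 / 2 * arctan (l / t) + l * t / 2 - l ^ 2 / 2 * arctan (t / l)

theorem an_deriv (l : ℝ) {t : ℝ} (ht : 0 < t) : HasDerivAt (an l) (t * arctan (l / t)) t := by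
  unfold an
  rcases eq_or_ne l 0 with rfl | hl
  · simp only [zero_div, arctan_zero, mul_zero, zero_mul, div_zero]
    norm_num
    exact hasDerivAt_const _ _
  · have h1 : HasDerivAt (fun t : ℝ => l / t) (-l / t ^ 2) t := by
      have := (hasDerivAt_inv ht.ne').const_mul l
      simp only [div_eq_mul_inv]
      exact this.congr_deriv (by ring)
    have h2 : HasDerivAt (fun t : ℝ => t / l) (1 / l) t := (hasDerivAt_id t).div_const l
    have h3 := ((hasDerivAt_pow 2 t).div_const 2).fun_mul h1.arctan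
    have h4 := ((hasDerivAt_id' t).const_mul l).div_const 2
    have h5 := h2.arctan.const_mul (l ^ 2 / 2)
    have h6 := (h3.fun_add h4).fun_sub h5
    refine h6.congr_deriv ?_
    have e1 : (0 : ℝ) < 1 + (l / t) ^ 2 := by positivity
    have e2 : (0 : ℝ) < 1 + (t / l) ^ 2 := by positivity
    have e3 : (0 : ℝ) < t ^ 2 + l ^ 2 := by positivity
    have e4 : 1 / (1 + (l / t) ^ 2) = t ^ 2 / (t ^ 2 + l ^ 2) := by
      field_simp
    have e5 : 1 / (1 + (t / l) ^ 2) = l ^ 2 / (t ^ 2 + l ^ 2) := by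
      rw [div_eq_div_iff e2.ne' e3.ne']
      field_simp
      ring
    rw [e4, e5]
    norm_num
    field_simp
    ring

theorem an_zero (l : ℝ) : Tendsto (an l) (𝓝[>] 0) (𝓝 0) := by
  rcases lt_trichotomy l 0 with hl | rfl | hl
  · have h1 : Tendsto (fun t : ℝ => t ^ 2 / 2 * (-(π / 2) - arctan (t / l)) + l * t / 2 -
        l ^ 2 / 2 * arctan (t / l)) (𝓝 0) (𝓝 0) := by
      apply Continuous.tendsto'
      · fun_prop
      · simp
    refine (h1.mono_left nhdsWithin_le_nhds).congr' ?_
    filter_upwards [self_mem_nhdsWithin] with t ht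
    have ht' : 0 < t := ht
    have h2 : t / l < 0 := div_neg_of_pos_of_neg ht' hl
    have h3 := arctan_inv_of_neg h2
    rw [inv_div] at h3
    unfold an
    rw [h3]
  · have : an 0 = fun _ => 0 := by
      ext t
      simp [an]
    rw [this]
    exact tendsto_const_nhds
  · have h1 : Tendsto (fun t : ℝ => t ^ 2 / 2 * (π / 2 - arctan (t / l)) + l * t / 2 -
        l ^ 2 / 2 * arctan (t / l)) (𝓝 0) (𝓝 0) := by
      apply Continuous.tendsto'
      · fun_prop
      · simp
    refine (h1.mono_left nhdsWithin_le_nhds).congr' ?_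
    filter_upwards [self_mem_nhdsWithin] with t ht
    have ht' : 0 < t := ht
    have h2 : 0 < t / l := by positivity
    have h3 := arctan_inv_of_pos h2
    rw [inv_div] at h3
    unfold an
    rw [h3]

theorem an_top (l : ℝ) : Tendsto (fun t => an l t - l * t) atTop (𝓝 (-(π / 4) * (l * |l|))) := by
  have h1 : Tendsto (fun t : ℝ => t ^ 2 / 2 * (arctan (l / t) - l / t)) atTop (𝓝 0) := by
    have h2 : Tendsto (fun t : ℝ => |l| ^ 3 / 2 * t⁻¹) atTop (𝓝 0) := by
      have := tendsto_inv_atTop_zero.const_mul (|l| ^ 3 / 2)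
      rwa [mul_zero] at this
    refine squeeze_zero_norm' ?_ h2
    filter_upwards [eventually_gt_atTop 0] with t ht
    rw [norm_mul, Real.norm_eq_abs, Real.norm_eq_abs, abs_of_nonneg (by positivity : 0 ≤ t ^ 2 / 2)]
    calc t ^ 2 / 2 * |arctan (l / t) - l / t| ≤ t ^ 2 / 2 * |l / t| ^ 3 :=
          mul_le_mul_of_nonneg_left (abs_arctan_sub _) (by positivity)
      _ = |l| ^ 3 / 2 * t⁻¹ := by
          rw [abs_div, abs_of_pos ht]
          field_simp
  have h2 : Tendsto (fun t : ℝ => l ^ 2 / 2 * arctan (t / l)) atTop (𝓝 (π / 4 * (l * |l|))) := by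
    rcases lt_trichotomy l 0 with hl | rfl | hl
    · have h3 : Tendsto (fun t : ℝ => t / l) atTop atBot := tendsto_id.atTop_div_const_of_neg hl
      have h4 := (tendsto_arctan_atBot.mono_right nhdsWithin_le_nhds).comp h3
      have h5 := h4.const_mul (l ^ 2 / 2)
      rw [abs_of_neg hl]
      have e : π / 4 * (l * -l) = l ^ 2 / 2 * -(π / 2) := by ring
      rw [e]
      exact h5
    · simp
    · have h3 : Tendsto (fun t : ℝ => t / l) atTop atTop := tendsto_id.atTop_div_const hl
      have h4 := (tendsto_arctan_atTop.mono_right nhdsWithin_le_nhds).comp h3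
      have h5 := h4.const_mul (l ^ 2 / 2)
      rw [abs_of_pos hl]
      have e : π / 4 * (l * l) = l ^ 2 / 2 * (π / 2) := by ring
      rw [e]
      exact h5
  have h3 := h1.sub h2
  rw [zero_sub, ← neg_mul] at h3
  refine h3.congr' ?_
  filter_upwards [eventually_gt_atTop 0] with t ht
  unfold an
  field_simp
  ring

/-- comparison -/
theorem compare {ι κ : Type*} [Fintype ι] [Fintype κ] (l : ι → ℝ) (m : κ → ℝ)
    (hs : ∑ i, l i = ∑ j, m j)
    (h : ∀ t : ℝ, 0 < t → ∑ i, arctan (l i / t) ≤ ∑ j, arctan (m j / t)) :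
    ∑ j, m j * |m j| ≤ ∑ i, l i * |l i| := by
  set P : ℝ → ℝ := fun t => ∑ i, an (l i) t - ∑ j, an (m j) t with hP
  have hd : ∀ t ∈ Ioi (0 : ℝ), HasDerivAt P
      (∑ i, t * arctan (l i / t) - ∑ j, t * arctan (m j / t)) t := by
    intro t ht
    exact (HasDerivAt.fun_sum fun i _ => an_deriv (l i) ht).sub
      (HasDerivAt.fun_sum fun j _ => an_deriv (m j) ht)
  have hanti : AntitoneOn P (Ioi 0) := by
    refine antitoneOn_of_hasDerivWithinAt_nonpos (convex_Ioi 0)
      (f' := fun t => ∑ i, t * arctan (l i / t) - ∑ j, t * arctan (m j / t)) ?_ ?_ ?_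
    · exact fun t ht => (hd t ht).continuousAt.continuousWithinAt
    · intro t ht
      rw [interior_Ioi] at ht
      exact (hd t ht).hasDerivWithinAt
    · intro t ht
      rw [interior_Ioi] at ht
      have ht' : 0 < t := ht
      rw [← Finset.mul_sum, ← Finset.mul_sum, ← mul_sub]
      exact mul_nonpos_of_nonneg_of_nonpos ht'.le (by linarith [h t ht'])
  have h0 : Tendsto P (𝓝[>] 0) (𝓝 0) := by
    have h1 : Tendsto (fun t => ∑ i, an (l i) t) (𝓝[>] 0) (𝓝 (∑ _i : ι, 0)) :=
      tendsto_finsetSum _ fun i _ => an_zero (l i)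
    have h2 : Tendsto (fun t => ∑ j, an (m j) t) (𝓝[>] 0) (𝓝 (∑ _j : κ, 0)) :=
      tendsto_finsetSum _ fun j _ => an_zero (m j)
    simpa using h1.sub h2
  have hle : ∀ t ∈ Ioi (0 : ℝ), P t ≤ 0 := by
    intro t ht
    refine ge_of_tendsto h0 ?_
    filter_upwards [Ioo_mem_nhdsGT (show (0 : ℝ) < t from ht)] with s hs
    exact hanti hs.1 ht hs.2.le
  have htop : Tendsto P atTop (𝓝 (∑ i, -(π / 4) * (l i * |l i|) - ∑ j, -(π / 4) * (m j * |m j|))) := by
    have h1 : Tendsto (fun t => ∑ i, (an (l i) t - l i * t)) atTop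
        (𝓝 (∑ i, -(π / 4) * (l i * |l i|))) := tendsto_finsetSum _ fun i _ => an_top (l i)
    have h2 : Tendsto (fun t => ∑ j, (an (m j) t - m j * t)) atTop
        (𝓝 (∑ j, -(π / 4) * (m j * |m j|))) := tendsto_finsetSum _ fun j _ => an_top (m j)
    refine (h1.sub h2).congr fun t => ?_
    rw [Finset.sum_sub_distrib, Finset.sum_sub_distrib, ← Finset.sum_mul, ← Finset.sum_mul, hs, hP]
    ring
  have hfin : ∑ i, -(π / 4) * (l i * |l i|) - ∑ j, -(π / 4) * (m j * |m j|) ≤ 0 := by
    refine le_of_tendsto htop ?_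
    filter_upwards [eventually_gt_atTop 0] with t ht
    exact hle t ht
  rw [← Finset.mul_sum, ← Finset.mul_sum] at hfin
  have := Real.pi_pos
  nlinarith

end Pool.Agent.Q105.SqE
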