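import Mathlib

/-!
The sum of the arctangents from the real and imaginary part of the product.
-/

namespace Pool.Agent.Q105.SqE

open Real Filter Topology Set Finset

theorem one_polar (x : ℝ) : (1 + Complex.I * x : ℂ) = (√(1 + x ^ 2) : ℝ) * Complex.exp (Complex.I * (arctan x : ℝ)) := by
  have h0 : (0 : ℝ) < √(1 + x ^ 2) := Real.sqrt_pos.2 (by positivity)
  rw [mul_comm Complex.I ((arctan x : ℝ) : ℂ), Complex.exp_mul_I, ← Complex.ofReal_cos,
    ← Complex.ofReal_sin, cos_arctan, sin_arctan]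
  have h1 : ((√(1 + x ^ 2) : ℝ) : ℂ) ≠ 0 := by exact_mod_cast h0.ne'
  push_cast
  field_simp

theorem prod_polar {ι : Type*} [Fintype ι] (l : ι → ℝ) {t : ℝ} (ht : 0 < t) :
    ∏ i, ((t : ℂ) + Complex.I * l i) = ((∏ i, (t * √(1 + (l i / t) ^ 2)) : ℝ) : ℂ) *
      Complex.exp (Complex.I * ((∑ i, arctan (l i / t) : ℝ) : ℂ)) := by
  have ht' : (t : ℂ) ≠ 0 := by exact_mod_cast ht.ne'
  push_cast
  rw [Finset.mul_sum, Complex.exp_sum, ← Finset.prod_mul_distrib]
  refine Finset.prod_congr rfl fun i _ => ?_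
  have h1 := one_polar (l i / t)
  have h2 : ((t : ℂ) + Complex.I * l i) = t * (1 + Complex.I * ((l i / t : ℝ) : ℂ)) := by
    push_cast
    field_simp
  rw [h2, h1]
  push_cast
  ring

theorem angle {ι : Type*} [Fintype ι] (l : ι → ℝ) (mu c : ℝ → ℝ) (e : ℝ)
    (hmu : ∀ t : ℝ, 0 < t → 0 < mu t) (hc : ∀ t : ℝ, 0 < t → 0 < c t)
    (h : ∀ t : ℝ, 0 < t → ∏ i, ((t : ℂ) + Complex.I * l i) = (c t : ℂ) * ((mu t : ℂ) + 2 * e * Complex.I)) :
    ∀ t : ℝ, 0 < t → ∑ i, arctan (l i / t) = arctan (2 * e / mu t) := by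
  set θ : ℝ → ℝ := fun t => ∑ i, arctan (l i / t) with hθ
  set r : ℝ → ℝ := fun t => ∏ i, (t * √(1 + (l i / t) ^ 2)) with hr
  have hrpos : ∀ t : ℝ, 0 < t → 0 < r t := fun t ht => Finset.prod_pos fun i _ =>
    mul_pos ht (Real.sqrt_pos.2 (by positivity))
  have hre : ∀ t : ℝ, 0 < t → r t * cos (θ t) = c t * mu t ∧ r t * sin (θ t) = c t * (2 * e) := by
    intro t ht
    have h1 := h t ht
    rw [prod_polar l ht, mul_comm Complex.I, Complex.exp_mul_I, ← Complex.ofReal_cos,
      ← Complex.ofReal_sin] at h1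
    have hrt : ∏ i, (t * √(1 + (l i / t) ^ 2)) = r t := rfl
    have hθt : ∑ i, arctan (l i / t) = θ t := rfl
    rw [hrt, hθt] at h1
    have h2 : ((r t * cos (θ t) : ℝ) : ℂ) + ((r t * sin (θ t) : ℝ) : ℂ) * Complex.I =
        ((c t * mu t : ℝ) : ℂ) + ((c t * (2 * e) : ℝ) : ℂ) * Complex.I := by
      simp only [Complex.ofReal_mul, Complex.ofReal_ofNat]
      linear_combination h1
    have h3 := congrArg Complex.re h2
    have h4 := congrArg Complex.im h2
    simp only [Complex.add_re, Complex.add_im, Complex.ofReal_re, Complex.ofReal_im,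
      Complex.mul_re, Complex.mul_im, Complex.I_re, Complex.I_im, mul_zero, mul_one, zero_mul,
      sub_zero, zero_add, add_zero] at h3 h4
    exact ⟨h3, h4⟩
  have hcos : ∀ t : ℝ, 0 < t → 0 < cos (θ t) := by
    intro t ht
    have h1 := (hre t ht).1
    have h2 : 0 < r t * cos (θ t) := by rw [h1]; exact mul_pos (hc t ht) (hmu t ht)
    exact (mul_pos_iff_of_pos_left (hrpos t ht)).1 h2
  have hcont : ContinuousOn θ (Ioi 0) := by
    refine continuousOn_finsetSum _ fun i _ => continuous_arctan.comp_continuousOn ?_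
    exact continuousOn_const.div continuousOn_id fun t ht => (show (0 : ℝ) < t from ht).ne'
  have hlim : Tendsto θ atTop (𝓝 0) := by
    have h1 : Tendsto θ atTop (𝓝 (∑ _i : ι, 0)) := by
      refine tendsto_finsetSum _ fun i _ => ?_
      have h2 : Tendsto (fun t : ℝ => l i / t) atTop (𝓝 0) := tendsto_const_nhds.div_atTop tendsto_id
      have h3 := (continuous_arctan.tendsto 0).comp h2
      rwa [arctan_zero] at h3
    simpa using h1
  have hpi : (0 : ℝ) < π / 2 := by have := Real.pi_pos; linarith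
  have hup : ∀ t : ℝ, 0 < t → θ t < π / 2 := by
    intro t ht
    by_contra hcon
    push Not at hcon
    obtain ⟨s, hs1, hs2⟩ := ((hlim.eventually_lt_const hpi).and (eventually_gt_atTop t)).exists
    have hsub : Icc t s ⊆ Ioi 0 := fun x hx => lt_of_lt_of_le ht hx.1
    obtain ⟨x, hx, hx2⟩ := intermediate_value_Icc' hs2.le (hcont.mono hsub) ⟨hs1.le, hcon⟩
    have := hcos x (hsub hx)
    rw [hx2, cos_pi_div_two] at this
    exact lt_irrefl _ this
  have hlo : ∀ t : ℝ, 0 < t → -(π / 2) < θ t := by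
    intro t ht
    by_contra hcon
    push Not at hcon
    have hpi' : -(π / 2) < 0 := by linarith
    obtain ⟨s, hs1, hs2⟩ := ((hlim.eventually_const_lt hpi').and (eventually_gt_atTop t)).exists
    have hsub : Icc t s ⊆ Ioi 0 := fun x hx => lt_of_lt_of_le ht hx.1
    obtain ⟨x, hx, hx2⟩ := intermediate_value_Icc hs2.le (hcont.mono hsub) ⟨hcon, hs1.le⟩
    have := hcos x (hsub hx)
    rw [hx2, cos_neg, cos_pi_div_two] at this
    exact lt_irrefl _ this
  intro t ht
  have h1 : tan (θ t) = 2 * e / mu t := by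
    rw [tan_eq_sin_div_cos]
    obtain ⟨h2, h3⟩ := hre t ht
    have h4 := hrpos t ht
    have h5 := hc t ht
    have h6 := hmu t ht
    have h7 := hcos t ht
    rw [div_eq_div_iff h7.ne' h6.ne']
    have h8 : r t * c t * (sin (θ t) * mu t) = r t * c t * (2 * e * cos (θ t)) := by
      calc r t * c t * (sin (θ t) * mu t) = (r t * sin (θ t)) * (c t * mu t) := by ring
        _ = (c t * (2 * e)) * (r t * cos (θ t)) := by rw [h2, h3]
        _ = _ := by ring
    exact mul_left_cancel₀ (mul_pos h4 h5).ne' h8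
  have h2 := arctan_tan (hlo t ht) (hup t ht)
  rw [h1] at h2
  exact h2.symm

end Pool.Agent.Q105.SqE
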