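import Pool.Agent.Q105.SqE.Star

/-!
The comparison of a unicyclic graph with `H_n^5` and `H_n^3`.
-/

namespace Pool.Agent.Q105.SqE

open Finset

/-- the weights as functions of `t` -/
theorem exists_w {V : Type*} [Fintype V] [DecidableEq V] {p : V → V} {d : V → ℕ}
    (hdp : ∀ x, d x ≠ 0 → d (p x) + 1 = d x) :
    ∃ w : ℝ → V → ℝ, ∀ t : ℝ, 0 < t → ∀ x, w t x = t + ∑ u ∈ ch p d x, (w t u)⁻¹ := by
  choose w hw using fun t : ℝ => exists_wt (p := p) (d := d) hdp t
  exact ⟨w, fun t _ => hw t⟩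

/-- the trace for `H_n^k` -/
theorem muw_H {n k : ℕ} (hk : 3 ≤ k) (hn : k + 1 ≤ n) {t : ℝ} (ht : 0 < t) {w : Fin n → ℝ}
    (hw : ∀ x, w x = t + ∑ u ∈ ch (fun x => if x.val = k then (⟨0, by omega⟩ : Fin n) else ⟨k, by omega⟩)
      (fun x => if x.val < k then 0 else if x.val = k then 1 else 2) x, (w u)⁻¹) :
    muw w (fun i => if h : i < n then (⟨i, h⟩ : Fin n) else ⟨0, by omega⟩) k = LB n k t := by
  set p : Fin n → Fin n := fun x => if x.val = k then (⟨0, by omega⟩ : Fin n) else ⟨k, by omega⟩ with hp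
  set d : Fin n → ℕ := fun x => if x.val < k then 0 else if x.val = k then 1 else 2 with hd
  have hdne : ∀ z : Fin n, d z ≠ 0 ↔ k ≤ z.val := by
    intro z
    simp only [hd]
    split_ifs with h1 h2
    · simp only [ne_eq, not_true_eq_false, false_iff, not_le]; exact h1
    · simp only [ne_eq, one_ne_zero, not_false_eq_true, true_iff]; omega
    · simp only [ne_eq, OfNat.ofNat_ne_zero, not_false_eq_true, true_iff]; omega
  have hch : ∀ x u : Fin n, u ∈ ch p d x ↔ (u.val = k ∧ x.val = 0) ∨ (k < u.val ∧ x.val = k) := by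
    intro x u
    rw [mem_ch, hdne]
    simp only [hp]
    split_ifs with h1
    · simp only [Fin.ext_iff]; omega
    · simp only [Fin.ext_iff]; omega
  -- leaves
  have hleaf : ∀ x : Fin n, x.val ≠ 0 → x.val ≠ k → w x = t := by
    intro x h1 h2
    rw [hw x]
    have : ch p d x = ∅ := by
      rw [Finset.eq_empty_iff_forall_notMem]
      intro u hu
      rw [hch] at hu
      omega
    rw [this, Finset.sum_empty, add_zero]
  -- the centre
  let c : Fin n := ⟨k, by omega⟩
  have hc : w c = t + ((n : ℝ) - k - 1) / t := by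
    rw [hw c]
    have h1 : ch p d c = univ.filter fun u : Fin n => k < u.val := by
      ext u
      rw [hch, mem_filter]
      have hcv : c.val = k := rfl
      rw [hcv]
      constructor
      · rintro (⟨_, h2⟩ | ⟨h2, _⟩)
        · omega
        · exact ⟨mem_univ _, h2⟩
      · rintro ⟨_, h2⟩
        exact Or.inr ⟨h2, rfl⟩
    have h2 : ∑ u ∈ ch p d c, (w u)⁻¹ = ∑ _u ∈ ch p d c, t⁻¹ := by
      refine Finset.sum_congr rfl fun u hu => ?_
      rw [h1, mem_filter] at hu
      rw [hleaf u (by omega) (by omega)]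
    rw [h2, Finset.sum_const, nsmul_eq_mul, h1]
    have h3 : (univ.filter fun u : Fin n => k < u.val).card = n - k - 1 := by
      have h4 : (univ.filter fun u : Fin n => k < u.val) = Finset.Ioi c := by
        ext u
        simp [c, Fin.lt_def]
      rw [h4, Fin.card_Ioi]
      change n - 1 - k = n - k - 1
      omega
    rw [h3, Nat.sub_sub, Nat.cast_sub (by omega), div_eq_mul_inv]
    push_cast
    ring
  have h0 : w ⟨0, by omega⟩ = t + t / (t ^ 2 + ((n : ℝ) - k - 1)) := by
    rw [hw ⟨0, by omega⟩]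
    have h1 : ch p d ⟨0, by omega⟩ = {c} := by
      ext u
      rw [hch, mem_singleton]
      constructor
      · rintro (⟨h2, _⟩ | ⟨_, h2⟩)
        · exact Fin.ext h2
        · exfalso
          change 0 = k at h2
          omega
      · rintro rfl
        exact Or.inl ⟨rfl, rfl⟩
    rw [h1, Finset.sum_singleton, hc]
    have hN0 : 0 ≤ (n : ℝ) - k - 1 := by
      have : (k : ℝ) + 1 ≤ n := by exact_mod_cast hn
      linarith
    congr 1
    rw [← one_div, div_eq_div_iff (by positivity) (by positivity)]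
    field_simp
  unfold muw
  refine mu_eq (by omega) t ?_ ?_
  · beta_reduce
    rw [dif_pos (by omega)]
    exact h0
  · intro j h1 h2
    beta_reduce
    rw [dif_pos (by omega)]
    refine hleaf _ ?_ ?_
    · change j ≠ 0
      omega
    · change j ≠ k
      omega

/-- comparison of the sums of the arctangents -/
theorem cmp {n a : ℕ} (ha : 3 ≤ a) (han : a + 2 ≤ n) (G : SimpleGraph (Fin n)) [DecidableRel G.Adj]
    [DecidableRel (H n a).Adj]
    (hG : G.Connected) (hE : G.edgeSet.ncard = n) (hb : ¬ G.Colorable 2) :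
    ∃ k, 3 ≤ k ∧ Odd k ∧ ∃ μ : ℝ → ℝ, ∀ t : ℝ, 0 < t → 0 < μ t ∧ 0 < LB n a t ∧
      ∑ i, Real.arctan ((adj_herm G).eigenvalues i / t) = Real.arctan (2 * sg k / μ t) ∧
      (Odd a → ∑ i, Real.arctan ((adj_herm (H n a)).eigenvalues i / t) =
        Real.arctan (2 * sg a / LB n a t)) ∧
      (Odd a → a ≤ k → LB n a t ≤ μ t) := by
  obtain ⟨k, v, p, d, h⟩ := exists_uni hG (by rw [hE, Fintype.card_fin])
  have hk := odd_of_uni h hb
  obtain ⟨w, hw⟩ := exists_w h.dp
  have hkn : k ≤ n := by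
    have := card_nonzero h
    rw [Fintype.card_fin] at this
    omega
  refine ⟨k, h.hk, hk, fun t => muw (w t) v k, fun t ht => ?_⟩
  obtain ⟨h1, h2⟩ := sum_arctan h hk w hw ht
  have hLB : 0 < LB n a t := by
    unfold LB
    have e1 := R_pow_nonneg ht.le a 0 0
    have e2 := R_pow_nonneg ht.le a 1 1
    have e3 : 0 < (R t ^ (a - 1)) 0 0 := by
      have hp : ∀ m, 0 < (R t ^ m) 0 0 := by
        intro m
        induction m with
        | zero => simp
        | succ m ih =>
          rw [pow_succ, Matrix.mul_apply, Fin.sum_univ_two]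
          have e4 := R_pow_nonneg ht.le m 0 1
          have e5 : (R t) 0 0 = t := rfl
          have e6 : (R t) 1 0 = 1 := rfl
          rw [e5, e6]
          nlinarith [mul_pos ih ht]
      exact hp _
    have han' : (a : ℝ) + 2 ≤ n := by exact_mod_cast han
    have e7 : 0 < t ^ 2 + ((n : ℝ) - a - 1) := by nlinarith [mul_pos ht ht]
    have e8 : 0 < t / (t ^ 2 + ((n : ℝ) - a - 1)) * (R t ^ (a - 1)) 0 0 := by positivity
    linarith
  refine ⟨h1, hLB, h2, ?_, ?_⟩
  · intro hao
    have hH := uni_H (n := n) ha (by omega)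
    obtain ⟨w', hw'⟩ := exists_w hH.dp
    obtain ⟨h3, h4⟩ := sum_arctan hH hao w' hw' ht
    rw [muw_H ha (by omega) ht (hw' t ht)] at h4
    exact h4
  · intro hao hak
    have hge := wt_ge ht h.dp (hw t ht)
    refine mu_lower (by omega) hak ?_ hkn han ht (fun j _ => hge _) ?_
    · obtain ⟨x, hx⟩ := hk
      obtain ⟨y, hy⟩ := hao
      exact ⟨x - y, by omega⟩
    · intro hlt
      have := heavy h ht (hw t ht) (by rw [Fintype.card_fin]; exact hlt)
      rwa [Fintype.card_fin] at this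

/-- `H_n^5` minimises `∑ l |l|` -/
theorem lower {n : ℕ} (hn : 7 ≤ n) (G : SimpleGraph (Fin n)) [DecidableRel G.Adj]
    [DecidableRel (H n 5).Adj]
    (hG : G.Connected) (hE : G.edgeSet.ncard = n) (hb : ¬ G.Colorable 2) :
    ∑ i, (adj_herm (H n 5)).eigenvalues i * |(adj_herm (H n 5)).eigenvalues i| ≤
      ∑ i, (adj_herm G).eigenvalues i * |(adj_herm G).eigenvalues i| := by
  obtain ⟨k, hk3, hk, μ, hμ⟩ := cmp (a := 5) (by norm_num) (by omega) G hG hE hb
  refine compare _ _ (by rw [sum_eigs, sum_eigs]) fun t ht => ?_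
  obtain ⟨h1, h2, h3, h4, h5⟩ := hμ t ht
  have h5odd : Odd 5 := by decide
  rw [h3, h4 h5odd]
  apply Real.arctan_mono
  have hs5 : sg 5 = 1 := by norm_num [sg]
  rw [hs5]
  unfold sg
  split_ifs with hc
  · have hk5 : 5 ≤ k := by omega
    have h6 := h5 h5odd hk5
    gcongr
  · have e1 : 2 * (-1 : ℝ) / μ t ≤ 0 := by
      apply div_nonpos_of_nonpos_of_nonneg (by norm_num) h1.le
    have e2 : 0 ≤ 2 * (1 : ℝ) / LB n 5 t := by positivity
    linarith

/-- `H_n^3` maximises `∑ l |l|` -/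
theorem upper {n : ℕ} (hn : 5 ≤ n) (G : SimpleGraph (Fin n)) [DecidableRel G.Adj]
    [DecidableRel (H n 3).Adj]
    (hG : G.Connected) (hE : G.edgeSet.ncard = n) (hb : ¬ G.Colorable 2) :
    ∑ i, (adj_herm G).eigenvalues i * |(adj_herm G).eigenvalues i| ≤
      ∑ i, (adj_herm (H n 3)).eigenvalues i * |(adj_herm (H n 3)).eigenvalues i| := by
  obtain ⟨k, hk3, hk, μ, hμ⟩ := cmp (a := 3) (by norm_num) (by omega) G hG hE hb
  refine compare _ _ (by rw [sum_eigs, sum_eigs]) fun t ht => ?_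
  obtain ⟨h1, h2, h3, h4, h5⟩ := hμ t ht
  have h3odd : Odd 3 := by decide
  rw [h3, h4 h3odd]
  apply Real.arctan_mono
  have hs3 : sg 3 = -1 := by norm_num [sg]
  rw [hs3]
  unfold sg
  split_ifs with hc
  · have e1 : 2 * (-1 : ℝ) / LB n 3 t ≤ 0 := by
      apply div_nonpos_of_nonpos_of_nonneg (by norm_num) h2.le
    have e2 : 0 ≤ 2 * (1 : ℝ) / μ t := by positivity
    linarith
  · have h6 := h5 h3odd hk3
    have e1 : 2 * (-1 : ℝ) / LB n 3 t = -(2 / LB n 3 t) := by ring
    have e2 : 2 * (-1 : ℝ) / μ t = -(2 / μ t) := by ring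
    rw [e1, e2]
    have e3 : 2 / μ t ≤ 2 / LB n 3 t := by gcongr
    linarith

theorem sum_sq_H {n k : ℕ} (hk : 3 ≤ k) (hn : k + 1 ≤ n) [DecidableRel (H n k).Adj] :
    ∑ i, (adj_herm (H n k)).eigenvalues i ^ 2 = 2 * n := by
  rw [sum_sq_eigs, uni_edges (uni_H hk hn), Fintype.card_fin]

end Pool.Agent.Q105.SqE
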