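import Mathlib

/-!
The determinant of `diag (i w) - A(C_k)` by transfer matrices.
-/

namespace Pool.Agent.Q105.SqE

open Matrix Complex

/-- transfer matrix -/
def T (x : ℂ) : Matrix (Fin 2) (Fin 2) ℂ := !![x, -1; 1, 0]

/-- product of the transfer matrices -/
def PT (a : ℕ → ℂ) : ℕ → Matrix (Fin 2) (Fin 2) ℂ
  | 0 => 1
  | m + 1 => PT a m * T (a m)

/-- cycle matrix with corner entry `-z` -/
def Cm (m : ℕ) (a : ℕ → ℂ) (z : ℂ) : Matrix (Fin m) (Fin m) ℂ :=
  Matrix.of fun i j => if i = j then a i else if i.val + 1 = j.val ∨ j.val + 1 = i.val then -1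
    else if (i.val = 0 ∧ j.val + 1 = m) ∨ (j.val = 0 ∧ i.val + 1 = m) then -z else 0

theorem det_elim {m : ℕ} (M : Matrix (Fin (m + 1)) (Fin (m + 1)) ℂ)
    (h : M (Fin.last m) (Fin.last m) ≠ 0) :
    M.det = M (Fin.last m) (Fin.last m) * Matrix.det (Matrix.of fun i j : Fin m =>
      M i.castSucc j.castSucc - M i.castSucc (Fin.last m) * M (Fin.last m) j.castSucc /
        M (Fin.last m) (Fin.last m)) := by
  set x := M (Fin.last m) (Fin.last m) with hx
  let e := finSumFinEquiv (m := m) (n := 1)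
  rw [← Matrix.det_submatrix_equiv_self e M]
  let D : Matrix (Fin 1) (Fin 1) ℂ := Matrix.of fun _ _ => x
  let D' : Matrix (Fin 1) (Fin 1) ℂ := Matrix.of fun _ _ => x⁻¹
  have hDD : D * D' = 1 := by
    ext i j
    fin_cases i; fin_cases j
    simp [D, D', Matrix.mul_apply, h]
  have hDD' : D' * D = 1 := by
    ext i j
    fin_cases i; fin_cases j
    simp [D, D', Matrix.mul_apply, h]
  let _ : Invertible D := ⟨D', hDD', hDD⟩
  have h1 : M.submatrix e e = fromBlocks (Matrix.of fun i j => M i.castSucc j.castSucc)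
      (Matrix.of fun i _ => M i.castSucc (Fin.last m))
      (Matrix.of fun _ j => M (Fin.last m) j.castSucc) D := by
    ext i j
    rcases i with i | i <;> rcases j with j | j
    · rfl
    · fin_cases j; rfl
    · fin_cases i; rfl
    · fin_cases i; fin_cases j; rfl
  rw [h1, det_fromBlocks₂₂]
  congr 1
  · rw [Matrix.det_fin_one]
    rfl
  · congr 1
    ext i j
    have h2 : (⅟D : Matrix (Fin 1) (Fin 1) ℂ) = D' := rfl
    rw [h2]
    simp [Matrix.sub_apply, Matrix.mul_apply, D', div_eq_mul_inv]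
    ring

theorem Cm_step (m : ℕ) (hm : 3 ≤ m) (a : ℕ → ℂ) (z : ℂ) (h : a m ≠ 0) :
    (Cm (m + 1) a z).det = a m * (Cm m (fun j => if j = 0 then a 0 - z ^ 2 / a m
      else if j + 1 = m then a j - 1 / a m else a j) (z / a m)).det := by
  have hl : Cm (m + 1) a z (Fin.last m) (Fin.last m) = a m := by
    simp [Cm]
  rw [det_elim _ (by rw [hl]; exact h), hl]
  congr 2
  ext i j
  obtain ⟨i, hi⟩ := i
  obtain ⟨j, hj⟩ := j
  simp only [Cm, Matrix.of_apply, Fin.ext_iff, Fin.val_castSucc, Fin.val_last]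
  have hne : i ≠ m := by omega
  have hne' : j ≠ m := by omega
  have hne'' : ¬ m = j := by omega
  have e1 : ¬ (j = 0 ∧ i + 1 = m + 1) := by omega
  have e2 : ¬ (i = 0 ∧ j + 1 = m + 1) := by omega
  have e3 : ¬ (m + 1 = i) := by omega
  have e4 : ¬ (m + 1 = j) := by omega
  have e5 : ¬ (m = 0) := by omega
  simp only [hne, hne', hne'', e1, e2, e3, e4, e5, if_false, false_or, or_false, and_true,
    false_and]
  by_cases c1 : i = j
  · subst c1
    by_cases c2 : i = 0
    · subst c2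
      have : ¬ (0 + 1 = m) := by omega
      simp [this]
      ring
    · by_cases c3 : i + 1 = m
      · simp [c2, c3]
      · simp [c2, c3]
  · by_cases c2 : i + 1 = j ∨ j + 1 = i
    · rw [if_neg c1, if_neg c1, if_pos c2, if_pos c2]
      rcases c2 with c2 | c2
      · have d1 : ¬ (i + 1 = m) := by omega
        by_cases d2 : i = 0
        · have d3 : ¬ (j + 1 = m) := by omega
          have d4 : ¬ (j = 0) := by omega
          simp [d1, d3, d4]
        · simp [d1, d2]
      · have d1 : ¬ (j + 1 = m) := by omega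
        by_cases d2 : j = 0
        · have d3 : ¬ (i + 1 = m) := by omega
          have d4 : ¬ (i = 0) := by omega
          simp [d1, d3, d4]
        · simp [d1, d2]
    · rw [if_neg c1, if_neg c1, if_neg c2, if_neg c2]
      by_cases c3 : (i = 0 ∧ j + 1 = m) ∨ (j = 0 ∧ i + 1 = m)
      · rw [if_pos c3]
        rcases c3 with ⟨rfl, c3⟩ | ⟨rfl, c3⟩
        · have d1 : ¬ (0 + 1 = m) := by omega
          simp [d1, c3]
        · have d1 : ¬ (0 + 1 = m) := by omega
          simp [d1, c3]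
      · rw [if_neg c3]
        by_cases d1 : i = 0
        · have d2 : ¬ (j + 1 = m) := fun hh => c3 (Or.inl ⟨d1, hh⟩)
          have d3 : ¬ (j = 0) := by omega
          simp [d1, d2, d3]
        · by_cases d4 : i + 1 = m
          · have d5 : ¬ (j = 0) := fun hh => c3 (Or.inr ⟨hh, d4⟩)
            have d6 : ¬ (j + 1 = m) := by omega
            simp [d1, d4, d5, d6]
          · simp [d1, d4]

/-- product of `T (a 1), ..., T (a m)` -/
def Mid (a : ℕ → ℂ) : ℕ → Matrix (Fin 2) (Fin 2) ℂ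
  | 0 => 1
  | m + 1 => Mid a m * T (a (m + 1))

theorem PT_mid (a : ℕ → ℂ) (m : ℕ) : PT a (m + 1) = T (a 0) * Mid a m := by
  induction m with
  | zero => simp [PT, Mid]
  | succ m ih =>
    have h1 : PT a (m + 1 + 1) = PT a (m + 1) * T (a (m + 1)) := rfl
    rw [h1, ih, Matrix.mul_assoc]
    rfl

theorem Mid_congr {a b : ℕ → ℂ} {m : ℕ} (h : ∀ j, 1 ≤ j → j ≤ m → a j = b j) :
    Mid a m = Mid b m := by
  induction m with
  | zero => rfl
  | succ m ih =>
    simp only [Mid]
    rw [ih (fun j h1 h2 => h j h1 (by omega)), h (m + 1) (by omega) le_rfl]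

theorem alg (Q : Matrix (Fin 2) (Fin 2) ℂ) (x b a z : ℂ) (ha : a ≠ 0) :
    a * ((T (x - z ^ 2 / a) * Q * T (b - 1 / a)) 0 0 +
      (z / a) ^ 2 * (T (x - z ^ 2 / a) * Q * T (b - 1 / a)) 1 1 - 2 * (z / a)) =
    (T x * Q * T b * T a) 0 0 + z ^ 2 * (T x * Q * T b * T a) 1 1 - 2 * z := by
  simp only [T, Matrix.mul_apply, Fin.sum_univ_two, Matrix.of_apply, Matrix.cons_val_zero,
    Matrix.cons_val_one, Matrix.cons_val', Matrix.cons_val_fin_one]
  field_simp
  ring

theorem det_Cm (m : ℕ) (hm : 3 ≤ m) : ∀ (a : ℕ → ℂ) (z : ℂ),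
    (∀ j, 1 ≤ j → ∃ w : ℝ, 0 < w ∧ a j = I * w) →
    (Cm m a z).det = PT a m 0 0 + z ^ 2 * PT a m 1 1 - 2 * z := by
  induction m, hm using Nat.le_induction with
  | base =>
    intro a z _
    rw [Matrix.det_fin_three]
    simp [Cm, PT, T, Matrix.mul_apply, Fin.sum_univ_two]
    ring
  | succ m hm ih =>
    intro a z ha
    obtain ⟨w, hw, haw⟩ := ha m (by omega)
    have hne : a m ≠ 0 := by
      rw [haw]
      exact mul_ne_zero I_ne_zero (by exact_mod_cast hw.ne')
    rw [Cm_step m hm a z hne, ih]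
    · obtain ⟨r, rfl⟩ : ∃ r, m = r + 2 := ⟨m - 2, by omega⟩
      have hr : 1 ≤ r := by omega
      set a' : ℕ → ℂ := fun j => if j = 0 then a 0 - z ^ 2 / a (r + 2)
        else if j + 1 = r + 2 then a j - 1 / a (r + 2) else a j with ha'
      have e1 : PT a' (r + 2) = T (a' 0) * Mid a' r * T (a' (r + 1)) := by
        have : PT a' (r + 2) = PT a' (r + 1) * T (a' (r + 1)) := rfl
        rw [this, PT_mid]
      have e2 : PT a (r + 2 + 1) = T (a 0) * Mid a r * T (a (r + 1)) * T (a (r + 2)) := by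
        have h1 : PT a (r + 2 + 1) = PT a (r + 1) * T (a (r + 1)) * T (a (r + 2)) := rfl
        rw [h1, PT_mid]
      have e3 : Mid a' r = Mid a r := by
        apply Mid_congr
        intro j h1 h2
        have c1 : ¬ (j = 0) := by omega
        have c2 : ¬ (j + 1 = r + 2) := by omega
        simp only [ha', if_neg c1, if_neg c2]
      have e4 : a' 0 = a 0 - z ^ 2 / a (r + 2) := by simp [ha']
      have e5 : a' (r + 1) = a (r + 1) - 1 / a (r + 2) := by simp [ha']
      rw [e1, e2, e3, e4, e5]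
      exact alg _ _ _ _ _ hne
    · intro j hj
      have c1 : ¬ (j = 0) := by omega
      simp only [c1, if_false]
      obtain ⟨v, hv, hav⟩ := ha j hj
      split_ifs with c2
      · refine ⟨v + w⁻¹, by positivity, ?_⟩
        rw [hav, haw]
        have hw' : (w : ℂ) ≠ 0 := by exact_mod_cast hw.ne'
        push_cast
        field_simp
        rw [I_sq]
        ring
      · exact ⟨v, hv, hav⟩

/-- real transfer matrix -/
def R (x : ℝ) : Matrix (Fin 2) (Fin 2) ℝ := !![x, 1; 1, 0]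

/-- product of the real transfer matrices -/
def PR (w : ℕ → ℝ) : ℕ → Matrix (Fin 2) (Fin 2) ℝ
  | 0 => 1
  | m + 1 => PR w m * R (w m)

theorem PT_PR (w : ℕ → ℝ) (m : ℕ) :
    PT (fun j => I * w j) m 0 0 = I ^ m * (PR w m 0 0 : ℝ) ∧
    PT (fun j => I * w j) m 0 1 = I ^ m * (I * (PR w m 0 1 : ℝ)) ∧
    PT (fun j => I * w j) m 1 0 = I ^ m * (-I * (PR w m 1 0 : ℝ)) ∧
    PT (fun j => I * w j) m 1 1 = I ^ m * (PR w m 1 1 : ℝ) := by
  induction m with
  | zero => simp [PT, PR]
  | succ m ih =>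
    obtain ⟨h1, h2, h3, h4⟩ := ih
    simp only [PT, PR, T, R, Matrix.mul_apply, Fin.sum_univ_two, Matrix.of_apply,
      Matrix.cons_val_zero, Matrix.cons_val_one, Matrix.cons_val', Matrix.cons_val_fin_one]
    rw [h1, h2, h3, h4]
    push_cast
    have hI : I * I = -1 := I_mul_I
    refine ⟨?_, ?_, ?_, ?_⟩
    · ring
    · rw [pow_succ]
      linear_combination (-(I ^ m * (PR w m 0 0 : ℂ))) * hI
    · rw [pow_succ]
      linear_combination ((I ^ m * (PR w m 1 1 : ℂ))) * hI
    · ring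

theorem det_cycle (m : ℕ) (hm : 3 ≤ m) (w : ℕ → ℝ) (hw : ∀ j, 0 < w j) :
    (Cm m (fun j => I * w j) 1).det = I ^ m * ((PR w m 0 0 + PR w m 1 1 : ℝ) : ℂ) - 2 := by
  rw [det_Cm m hm _ _ (fun j _ => ⟨w j, hw j, rfl⟩)]
  obtain ⟨h1, -, -, h4⟩ := PT_PR w m
  rw [h1, h4]
  push_cast
  ring

end Pool.Agent.Q105.SqE
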