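import Pool.Agent.Q105.SqE.Cyc

/-!
Bounds for the trace of the product of the real transfer matrices.
-/

namespace Pool.Agent.Q105.SqE

open Matrix

abbrev M2 := Matrix (Fin 2) (Fin 2) ℝ

/-- entrywise order between `0`, `A` and `B` -/
def Le (A B : M2) : Prop := ∀ i j, 0 ≤ A i j ∧ A i j ≤ B i j

theorem Le.mul {A A' B B' : M2} (h : Le A A') (h' : Le B B') : Le (A * B) (A' * B') := by
  intro i j
  rw [Matrix.mul_apply, Matrix.mul_apply]
  constructor
  · exact Finset.sum_nonneg fun l _ => mul_nonneg (h i l).1 (h' l j).1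
  · exact Finset.sum_le_sum fun l _ => mul_le_mul (h i l).2 (h' l j).2 (h' l j).1
      ((h i l).1.trans (h i l).2)

theorem Le.refl' {A : M2} (h : ∀ i j, 0 ≤ A i j) : Le A A := fun i j => ⟨h i j, le_rfl⟩

theorem Le.trans' {A B C : M2} (h : Le A B) (h' : Le B C) : Le A C :=
  fun i j => ⟨(h i j).1, (h i j).2.trans (h' i j).2⟩

theorem R_le {x y : ℝ} (hx : 0 ≤ x) (h : x ≤ y) : Le (R x) (R y) := by
  intro i j
  fin_cases i <;> fin_cases j <;> simp [R, hx, h]

theorem one_le_one : Le (1 : M2) 1 := by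
  refine Le.refl' fun i j => ?_
  fin_cases i <;> fin_cases j <;> simp

theorem PR_le {w w' : ℕ → ℝ} {k : ℕ} (h : ∀ j < k, 0 ≤ w j ∧ w j ≤ w' j) : Le (PR w k) (PR w' k) := by
  induction k with
  | zero => exact one_le_one
  | succ k ih =>
    exact (ih fun j hj => h j (by omega)).mul (R_le (h k (by omega)).1 (h k (by omega)).2)

theorem PR_const (t : ℝ) (k : ℕ) : PR (fun _ => t) k = R t ^ k := by
  induction k with
  | zero => rfl
  | succ k ih => rw [pow_succ, ← ih]; rfl

/-- a single raised entry -/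
theorem PR_single (t δ : ℝ) (j k : ℕ) (hj : j < k) :
    PR (fun i => if i = j then t + δ else t) k =
      R t ^ j * R (t + δ) * R t ^ (k - 1 - j) := by
  induction k with
  | zero => omega
  | succ k ih =>
    rcases Nat.lt_succ_iff_lt_or_eq.1 hj with h | h
    · have e1 : k + 1 - 1 - j = (k - 1 - j) + 1 := by omega
      have e2 : PR (fun i => if i = j then t + δ else t) (k + 1) =
          PR (fun i => if i = j then t + δ else t) k * R (if k = j then t + δ else t) := rfl
      rw [e1, pow_succ, e2, ih h, if_neg (by omega), ← Matrix.mul_assoc]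
    · subst h
      have e2 : PR (fun i => if i = j then t + δ else t) (j + 1) =
          PR (fun i => if i = j then t + δ else t) j * R (if j = j then t + δ else t) := rfl
      have e3 : ∀ m ≤ j, PR (fun i => if i = j then t + δ else t) m = R t ^ m := by
        intro m
        induction m with
        | zero => intro _; rfl
        | succ m ihm =>
          intro hm
          have e4 : PR (fun i => if i = j then t + δ else t) (m + 1) =
            PR (fun i => if i = j then t + δ else t) m * R (if m = j then t + δ else t) := rfl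
          rw [e4, ihm (by omega), if_neg (by omega), pow_succ]
      rw [e2, e3 j le_rfl]
      simp

theorem tr_single (t δ : ℝ) (a b : ℕ) :
    (R t ^ a * R (t + δ) * R t ^ b) 0 0 + (R t ^ a * R (t + δ) * R t ^ b) 1 1 =
      (R t ^ (a + b + 1)) 0 0 + (R t ^ (a + b + 1)) 1 1 + δ * (R t ^ (a + b)) 0 0 := by
  have h1 : ∀ M : M2, M 0 0 + M 1 1 = M.trace := fun M => by
    rw [Matrix.trace, Fin.sum_univ_two]; rfl
  rw [h1, h1, Matrix.mul_assoc, Matrix.trace_mul_comm, Matrix.mul_assoc, ← pow_add]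
  have h2 : R (t + δ) = R t + δ • !![1, 0; 0, 0] := by
    ext i j
    fin_cases i <;> fin_cases j <;> simp [R]
  rw [h2, Matrix.add_mul, Matrix.trace_add, ← pow_succ', Nat.add_comm b a, Matrix.smul_mul,
    Matrix.trace_smul]
  congr 1
  rw [Matrix.trace, Fin.sum_univ_two]
  simp only [Matrix.diag_apply, Matrix.mul_apply, Fin.sum_univ_two, Matrix.of_apply,
    Matrix.cons_val_zero, Matrix.cons_val_one, Matrix.cons_val', Matrix.cons_val_fin_one,
    smul_eq_mul]
  ring

theorem R_pow_nonneg {t : ℝ} (ht : 0 ≤ t) (k : ℕ) (i j : Fin 2) : 0 ≤ (R t ^ k) i j := by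
  rw [← PR_const]
  exact (PR_le (w := fun _ => t) (w' := fun _ => t) (k := k) (fun _ _ => ⟨ht, le_rfl⟩) i j).1

theorem R_sq (t : ℝ) : R t ^ 2 = !![t ^ 2 + 1, t; t, 1] := by
  rw [pow_two]
  ext i j
  fin_cases i <;> fin_cases j <;> simp [R, Matrix.mul_apply, Fin.sum_univ_two] <;> ring

theorem R_pow_mono {t : ℝ} (ht : 0 ≤ t) (k r : ℕ) : Le (R t ^ k) (R t ^ (k + 2 * r)) := by
  induction r with
  | zero => exact Le.refl' fun i j => R_pow_nonneg ht _ _ _
  | succ r ih =>
    refine ih.trans' ?_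
    have e : k + 2 * (r + 1) = (k + 2 * r) + 2 := by ring
    rw [e, pow_add (R t) (k + 2 * r) 2]
    have h1 : Le (1 : M2) (R t ^ 2) := by
      rw [R_sq]
      intro i j
      fin_cases i <;> fin_cases j <;> simp <;> nlinarith
    have h2 := (Le.refl' (A := R t ^ (k + 2 * r)) fun i j => R_pow_nonneg ht _ i j).mul h1
    rwa [mul_one] at h2

/-- the lower bound -/
noncomputable def LB (n k : ℕ) (t : ℝ) : ℝ :=
  (R t ^ k) 0 0 + (R t ^ k) 1 1 + t / (t ^ 2 + ((n : ℝ) - k - 1)) * (R t ^ (k - 1)) 0 0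

theorem mu_lower {n k a : ℕ} (ha : 1 ≤ a) (hak : a ≤ k) (hpar : Even (k - a)) (hkn : k ≤ n)
    (han : a + 2 ≤ n) {t : ℝ} (ht : 0 < t) {w : ℕ → ℝ} (hw : ∀ j < k, t ≤ w j)
    (hN : k < n → ∃ j < k, t + t / (t ^ 2 + ((n : ℝ) - k - 1)) ≤ w j) :
    LB n a t ≤ PR w k 0 0 + PR w k 1 1 := by
  have han' : (a : ℝ) + 2 ≤ n := by exact_mod_cast han
  obtain ⟨r, hr⟩ := hpar
  have hk : k = a + 2 * r := by omega
  rcases Nat.lt_or_ge k n with hlt | hge
  · obtain ⟨j, hj, hwj⟩ := hN hlt
    set δ := t / (t ^ 2 + ((n : ℝ) - k - 1)) with hδ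
    have h1 : Le (PR (fun i => if i = j then t + δ else t) k) (PR w k) := by
      refine PR_le fun i hi => ?_
      have hδ0 : 0 ≤ δ := by
        have : (k : ℝ) + 1 ≤ n := by exact_mod_cast hlt
        have : 0 < t ^ 2 + ((n : ℝ) - k - 1) := by nlinarith [sq_nonneg t, mul_pos ht ht]
        positivity
      split_ifs with hij
      · subst hij
        exact ⟨by linarith, hwj⟩
      · exact ⟨ht.le, hw i hi⟩
    rw [PR_single t δ j k hj] at h1
    have h2 := tr_single t δ j (k - 1 - j)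
    have e1 : j + (k - 1 - j) + 1 = k := by omega
    have e2 : j + (k - 1 - j) = k - 1 := by omega
    rw [e1, e2] at h2
    have h3 := (h1 0 0).2
    have h4 := (h1 1 1).2
    have h5 : Le (R t ^ a) (R t ^ k) := by rw [hk]; exact R_pow_mono ht.le a r
    have h6 : Le (R t ^ (a - 1)) (R t ^ (k - 1)) := by
      have : k - 1 = (a - 1) + 2 * r := by omega
      rw [this]; exact R_pow_mono ht.le (a - 1) r
    have hk1 : (k : ℝ) + 1 ≤ n := by exact_mod_cast hlt
    have hak' : (a : ℝ) ≤ k := by exact_mod_cast hak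
    have h7 : t / (t ^ 2 + ((n : ℝ) - a - 1)) ≤ δ := by
      rw [hδ]
      apply div_le_div_of_nonneg_left ht.le
      · nlinarith [mul_pos ht ht]
      · linarith
    have h8 : 0 ≤ t / (t ^ 2 + ((n : ℝ) - a - 1)) := by
      have : 0 < t ^ 2 + ((n : ℝ) - a - 1) := by nlinarith [mul_pos ht ht]
      positivity
    have h9 : t / (t ^ 2 + ((n : ℝ) - a - 1)) * (R t ^ (a - 1)) 0 0 ≤ δ * (R t ^ (k - 1)) 0 0 :=
      mul_le_mul h7 (h6 0 0).2 (h6 0 0).1 (h8.trans h7)
    have h10 := (h5 0 0).2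
    have h11 := (h5 1 1).2
    unfold LB
    linarith
  · have hkn' : k = n := le_antisymm hkn hge
    have hr1 : 1 ≤ r := by omega
    have h1 : Le (PR (fun _ => t) k) (PR w k) := PR_le fun i hi => ⟨ht.le, hw i hi⟩
    rw [PR_const] at h1
    have h2 : Le (R t ^ (a + 2)) (R t ^ k) := by
      have : k = (a + 2) + 2 * (r - 1) := by omega
      rw [this]; exact R_pow_mono ht.le _ _
    have h3 := h2.trans' h1
    have e1 : R t ^ (a + 2) = R t ^ a * R t ^ 2 := pow_add _ _ _
    have e2 : (R t ^ a) 0 1 = (R t ^ (a - 1)) 0 0 := by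
      obtain ⟨b, rfl⟩ : ∃ b, a = b + 1 := ⟨a - 1, by omega⟩
      rw [pow_succ, Matrix.mul_apply, Fin.sum_univ_two]
      simp [R]
    have h4 := (h3 0 0).2
    have h5 := (h3 1 1).2
    rw [e1, R_sq, Matrix.mul_apply, Fin.sum_univ_two] at h4 h5
    simp only [Matrix.of_apply, Matrix.cons_val_zero, Matrix.cons_val_one, Matrix.cons_val',
      Matrix.cons_val_fin_one] at h4 h5
    rw [e2] at h4
    have p1 := R_pow_nonneg ht.le a 0 0
    have p2 := R_pow_nonneg ht.le a 1 0
    have p3 := R_pow_nonneg ht.le (a - 1) 0 0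
    have h6 : t / (t ^ 2 + ((n : ℝ) - a - 1)) ≤ t := by
      rw [div_le_iff₀ (by nlinarith [mul_pos ht ht])]
      nlinarith [mul_pos ht ht]
    have h7 : t / (t ^ 2 + ((n : ℝ) - a - 1)) * (R t ^ (a - 1)) 0 0 ≤ t * (R t ^ (a - 1)) 0 0 :=
      mul_le_mul_of_nonneg_right h6 p3
    unfold LB
    nlinarith [mul_nonneg (sq_nonneg t) p1, mul_nonneg ht.le p2]

theorem mu_eq {n k : ℕ} (hk : 1 ≤ k) (t : ℝ) {w : ℕ → ℝ}
    (h0 : w 0 = t + t / (t ^ 2 + ((n : ℝ) - k - 1))) (hw : ∀ j, 1 ≤ j → j < k → w j = t) :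
    PR w k 0 0 + PR w k 1 1 = LB n k t := by
  have h1 : ∀ m ≤ k, PR w m = PR (fun i => if i = 0 then t + t / (t ^ 2 + ((n : ℝ) - k - 1)) else t) m := by
    intro m
    induction m with
    | zero => intro _; rfl
    | succ m ih =>
      intro hm
      have e1 : PR w (m + 1) = PR w m * R (w m) := rfl
      rw [e1, ih (by omega)]
      change _ = _ * R (if m = 0 then t + t / (t ^ 2 + ((n : ℝ) - k - 1)) else t)
      congr 2
      split_ifs with h
      · rw [h, h0]
      · exact hw m (by omega) (by omega)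
  rw [h1 k le_rfl, PR_single t _ 0 k (by omega)]
  have h2 := tr_single t (t / (t ^ 2 + ((n : ℝ) - k - 1))) 0 (k - 1 - 0)
  have e1 : 0 + (k - 1 - 0) + 1 = k := by omega
  have e2 : 0 + (k - 1 - 0) = k - 1 := by omega
  rw [e1, e2] at h2
  exact h2

end Pool.Agent.Q105.SqE
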