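import Pool.Agent.Q105.SqE.Tree

/-!
The structure of connected graphs with as many edges as vertices.
-/

namespace Pool.Agent.Q105.SqE

open Finset

variable {V : Type*} [Fintype V] {G : SimpleGraph V}

theorem exists_uni (hG : G.Connected) (hE : G.edgeSet.ncard = Fintype.card V) :
    ∃ (k : ℕ) (v : ℕ → V) (p : V → V) (d : V → ℕ), Uni G k v p d := by
  classical
  -- a cycle
  have hcyc : ¬ G.IsAcyclic := by
    intro hac
    have hT : G.IsTree := ⟨hG, hac⟩
    have h1 := hT.card_edgeFinset
    rw [← hE, ← SimpleGraph.coe_edgeFinset, Set.ncard_coe_finset] at h1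
    omega
  unfold SimpleGraph.IsAcyclic at hcyc
  push Not at hcyc
  obtain ⟨v0, c, hc⟩ := hcyc
  set k := c.length with hk
  have hk3 : 3 ≤ k := hc.three_le_length
  let v : ℕ → V := c.getVert
  have hv0 : v 0 = v0 := c.getVert_zero
  have hvk : v k = v 0 := by rw [hv0]; exact c.getVert_length
  have hinj : ∀ i < k, ∀ j < k, v i = v j → i = j := by
    intro i hi j hj hij
    exact hc.getVert_injOn' (by simp only [Set.mem_ofPred_eq]; omega)
      (by simp only [Set.mem_ofPred_eq]; omega) hij
  have hadj : ∀ i < k, G.Adj (v i) (v (i + 1)) := fun i hi => c.adj_getVert_succ hi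
  -- the distance from the cycle
  have hex : ∀ x, ∃ m, ∃ i < k, ∃ w : G.Walk x (v i), w.length = m := by
    intro x
    obtain ⟨w⟩ := hG.preconnected x (v 0)
    exact ⟨w.length, 0, by omega, w, rfl⟩
  let d : V → ℕ := fun x => Nat.find (hex x)
  have hdle : ∀ x i (_ : i < k) (w : G.Walk x (v i)), d x ≤ w.length := fun x i hi w =>
    Nat.find_min' (hex x) ⟨i, hi, w, rfl⟩
  have hdspec : ∀ x, ∃ i < k, ∃ w : G.Walk x (v i), w.length = d x := fun x => Nat.find_spec (hex x)
  have hd0 : ∀ x, d x = 0 ↔ ∃ i < k, v i = x := by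
    intro x
    constructor
    · intro h
      obtain ⟨i, hi, w, hw⟩ := hdspec x
      rw [h] at hw
      exact ⟨i, hi, (SimpleGraph.Walk.eq_of_length_eq_zero hw).symm⟩
    · rintro ⟨i, hi, rfl⟩
      have := hdle (v i) i hi SimpleGraph.Walk.nil
      simpa using this
  have hpar : ∀ x, d x ≠ 0 → ∃ y, G.Adj x y ∧ d y + 1 = d x := by
    intro x hx
    obtain ⟨i, hi, w, hw⟩ := hdspec x
    cases w with
    | nil => exact absurd hw.symm hx
    | @cons _ y _ h w' =>
      refine ⟨y, h, ?_⟩
      rw [SimpleGraph.Walk.length_cons] at hw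
      have h1 := hdle y i hi w'
      obtain ⟨j, hj, w2, hw2⟩ := hdspec y
      have h2 := hdle x j hj (SimpleGraph.Walk.cons h w2)
      rw [SimpleGraph.Walk.length_cons] at h2
      omega
  choose! p hp1 hp2 using hpar
  -- the edges
  let Ec : Finset (Sym2 V) := (range k).image fun i => s(v i, v (i + 1))
  let Et : Finset (Sym2 V) := (univ.filter fun x => d x ≠ 0).image fun x => s(x, p x)
  have hv1 : ∀ i < k, d (v i) = 0 := fun i hi => (hd0 _).2 ⟨i, hi, rfl⟩
  have hv2 : ∀ i < k, d (v (i + 1)) = 0 := by
    intro i hi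
    rcases Nat.lt_or_ge (i + 1) k with h | h
    · exact hv1 _ h
    · have : i + 1 = k := by omega
      rw [this, hvk]
      exact hv1 0 (by omega)
  have hEc : Ec.card = k := by
    rw [Finset.card_image_of_injOn, card_range]
    intro i hi j hj hij
    rw [coe_range, Set.mem_Iio] at hi hj
    simp only [Sym2.eq_iff] at hij
    rcases hij with ⟨h1, -⟩ | ⟨h1, h2⟩
    · exact hinj i hi j hj h1
    · exfalso
      have e1 : i = j + 1 ∨ (i = 0 ∧ j + 1 = k) := by
        rcases Nat.lt_or_ge (j + 1) k with h | h
        · exact Or.inl (hinj i hi (j + 1) h h1)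
        · have : j + 1 = k := by omega
          rw [this, hvk] at h1
          exact Or.inr ⟨hinj i hi 0 (by omega) h1, this⟩
      have e2 : j = i + 1 ∨ (j = 0 ∧ i + 1 = k) := by
        rcases Nat.lt_or_ge (i + 1) k with h | h
        · exact Or.inl (hinj j hj (i + 1) h h2.symm)
        · have : i + 1 = k := by omega
          rw [this, hvk] at h2
          exact Or.inr ⟨hinj j hj 0 (by omega) h2.symm, this⟩
      omega
  have hEt : Et.card = (univ.filter fun x => d x ≠ 0).card := by
    apply Finset.card_image_of_injOn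
    intro x hx y hy hxy
    rw [coe_filter, Set.mem_ofPred] at hx hy
    simp only [Sym2.eq_iff] at hxy
    rcases hxy with ⟨h1, -⟩ | ⟨h1, h2⟩
    · exact h1
    · exfalso
      have h3 := hp2 x hx.2
      have h4 := hp2 y hy.2
      rw [h2] at h3
      rw [← h1] at h4
      omega
  have hdisj : Disjoint Ec Et := by
    rw [Finset.disjoint_left]
    intro e he1 he2
    simp only [Ec, Et, mem_image, mem_range, mem_filter, mem_univ, true_and] at he1 he2
    obtain ⟨i, hi, rfl⟩ := he1
    obtain ⟨x, hx, hxe⟩ := he2
    rw [Sym2.eq_iff] at hxe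
    rcases hxe with ⟨h1, -⟩ | ⟨h1, -⟩
    · rw [h1] at hx; exact hx (hv1 i hi)
    · rw [h1] at hx; exact hx (hv2 i hi)
  have hcard0 : (univ.filter fun x => d x = 0).card = k := by
    have : (univ.filter fun x => d x = 0) = (range k).image v := by
      ext x
      simp only [mem_filter, mem_univ, true_and, mem_image, mem_range]
      rw [hd0]
    rw [this, Finset.card_image_of_injOn, card_range]
    intro i hi j hj hij
    rw [coe_range, Set.mem_Iio] at hi hj
    exact hinj i hi j hj hij
  have hsplit := Finset.card_filter_add_card_filter_not (s := (univ : Finset V)) (fun x => d x = 0)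
  rw [hcard0, card_univ] at hsplit
  have hsub : Ec ∪ Et ⊆ G.edgeFinset := by
    intro e he
    rw [mem_union] at he
    rw [SimpleGraph.mem_edgeFinset]
    rcases he with he | he
    · simp only [Ec, mem_image, mem_range] at he
      obtain ⟨i, hi, rfl⟩ := he
      exact hadj i hi
    · simp only [Et, mem_image, mem_filter, mem_univ, true_and] at he
      obtain ⟨x, hx, rfl⟩ := he
      exact hp1 x hx
  have hEcard : G.edgeFinset.card = Fintype.card V := by
    rw [← hE, ← SimpleGraph.coe_edgeFinset, Set.ncard_coe_finset]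
  have heq : Ec ∪ Et = G.edgeFinset := by
    apply Finset.eq_of_subset_of_card_le hsub
    rw [Finset.card_union_of_disjoint hdisj, hEc, hEt, hEcard]
    exact hsplit.ge
  have hmem : ∀ x y, G.Adj x y → s(x, y) ∈ Ec ∨ s(x, y) ∈ Et := by
    intro x y h
    rw [← mem_union, heq, SimpleGraph.mem_edgeFinset]
    exact h
  refine ⟨k, v, p, d, hk3, hinj, ?_, hd0, hp2, ?_⟩
  · intro i hi j hj
    constructor
    · intro h
      rcases hmem _ _ h with h1 | h1
      · simp only [Ec, mem_image, mem_range, Sym2.eq_iff] at h1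
        obtain ⟨l, hl, h1⟩ := h1
        have key : ∀ a < k, v (l + 1) = v a → l + 1 = a ∨ (a = 0 ∧ l + 1 = k) := by
          intro a ha h2
          rcases Nat.lt_or_ge (l + 1) k with h | h
          · exact Or.inl (hinj _ h a ha h2)
          · have : l + 1 = k := by omega
            rw [this, hvk] at h2
            exact Or.inr ⟨(hinj 0 (by omega) a ha h2).symm, this⟩
        rcases h1 with ⟨h2, h3⟩ | ⟨h2, h3⟩
        · have h4 := hinj l hl i hi h2
          have h5 := key j hj h3
          omega
        · have h4 := hinj l hl j hj h2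
          have h5 := key i hi h3
          omega
      · simp only [Et, mem_image, mem_filter, mem_univ, true_and, Sym2.eq_iff] at h1
        obtain ⟨x, hx, h1⟩ := h1
        exfalso
        rcases h1 with ⟨h2, -⟩ | ⟨h2, -⟩
        · rw [h2] at hx; exact hx (hv1 i hi)
        · rw [h2] at hx; exact hx (hv1 j hj)
    · rintro (h | h | ⟨h, h'⟩ | ⟨h, h'⟩)
      · rw [← h]; exact hadj i hi
      · rw [← h]; exact (hadj j hj).symm
      · have := hadj j hj
        rw [h', hvk, ← h] at this
        exact this.symm
      · have := hadj i hi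
        rw [h', hvk, ← h] at this
        exact this
  · intro x y hxy
    constructor
    · intro h
      rcases hmem _ _ h with h1 | h1
      · simp only [Ec, mem_image, mem_range, Sym2.eq_iff] at h1
        obtain ⟨l, hl, h1⟩ := h1
        exfalso
        apply hxy
        rcases h1 with ⟨h2, h3⟩ | ⟨h2, h3⟩
        · rw [← h2, ← h3]; exact ⟨hv1 l hl, hv2 l hl⟩
        · rw [← h2, ← h3]; exact ⟨hv2 l hl, hv1 l hl⟩
      · simp only [Et, mem_image, mem_filter, mem_univ, true_and, Sym2.eq_iff] at h1
        obtain ⟨z, hz, h1⟩ := h1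
        rcases h1 with ⟨rfl, h3⟩ | ⟨rfl, h3⟩
        · exact Or.inl ⟨hz, h3⟩
        · exact Or.inr ⟨hz, h3⟩
    · rintro (⟨h1, rfl⟩ | ⟨h1, rfl⟩)
      · exact hp1 x h1
      · exact (hp1 y h1).symm

theorem odd_of_uni {k : ℕ} {v : ℕ → V} {p : V → V} {d : V → ℕ} (h : Uni G k v p d)
    (hG : ¬ G.Colorable 2) : Odd k := by
  classical
  by_contra hk
  rw [Nat.not_odd_iff_even] at hk
  apply hG
  have hk3 := h.hk
  have hroot : ∀ m x, d x = m → d (p^[m] x) = 0 := by
    intro m
    induction m with
    | zero => intro x hx; exact hx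
    | succ m ih =>
      intro x hx
      rw [Function.iterate_succ_apply]
      apply ih
      have := h.dp x (by omega)
      omega
  let idx : V → ℕ := fun x => if hx : ∃ i < k, v i = x then Classical.choose hx else 0
  have hidx : ∀ i < k, idx (v i) = i := by
    intro i hi
    have hx : ∃ j < k, v j = v i := ⟨i, hi, rfl⟩
    have h1 : idx (v i) = Classical.choose hx := dif_pos hx
    rw [h1]
    have h2 := Classical.choose_spec hx
    exact h.inj _ h2.1 i hi h2.2
  let col : V → Bool := fun x => decide (Even (d x + idx (p^[d x] x)))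
  have htree : ∀ x y, d y ≠ 0 → p y = x → col x ≠ col y := by
    intro x y hy hxy
    have h1 := h.dp y hy
    rw [hxy] at h1
    have h2 : p^[d y] y = p^[d x] x := by
      rw [← h1, Function.iterate_succ_apply, hxy]
    simp only [col, ne_eq, decide_eq_decide]
    rw [h2, ← h1]
    have : d x + 1 + idx (p^[d x] x) = (d x + idx (p^[d x] x)) + 1 := by ring
    rw [this, Nat.even_add_one]
    tauto
  have hcol : ∀ x y, G.Adj x y → col x ≠ col y := by
    intro x y hxy
    by_cases hd : d x = 0 ∧ d y = 0
    · obtain ⟨i, hi, rfl⟩ := (h.d0 x).1 hd.1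
      obtain ⟨j, hj, rfl⟩ := (h.d0 y).1 hd.2
      simp only [col, ne_eq, decide_eq_decide, hd.1, hd.2, Function.iterate_zero, id,
        hidx i hi, hidx j hj, zero_add]
      have h2 := (h.cyc i hi j hj).1 hxy
      rcases h2 with h2 | h2 | ⟨h2, h3⟩ | ⟨h2, h3⟩
      · rw [← h2, Nat.even_add_one]; tauto
      · rw [← h2, Nat.even_add_one]; tauto
      · rw [h2]
        rw [← h3, Nat.even_add_one] at hk
        simpa using hk
      · rw [h2]
        rw [← h3, Nat.even_add_one] at hk
        simpa using hk
    · rcases (h.tree x y hd).1 hxy with ⟨h1, h2⟩ | ⟨h1, h2⟩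
      · exact (htree y x h1 h2).symm
      · exact htree x y h1 h2
  have := (SimpleGraph.Coloring.mk col fun {x y} => hcol x y).colorable
  simpa using this

end Pool.Agent.Q105.SqE
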