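import Pool.Agent.Q105.SqE.Tree
import Pool.Agent.Q105.SqE.Mu
import Pool.Agent.Q105.SqE.Ana
import Pool.Agent.Q105.SqE.Angle
import Pool.Agent.Q105.SqE.Str

/-!
The sum of the arctangents of the eigenvalues of a unicyclic graph.
-/

namespace Pool.Agent.Q105.SqE

open Matrix Finset

theorem adj_herm {V : Type*} [Fintype V] [DecidableEq V] (G : SimpleGraph V) [DecidableRel G.Adj] :
    (G.adjMatrix ℝ).IsHermitian := by
  rw [Matrix.IsHermitian, Matrix.conjTranspose_eq_transpose_of_trivial]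
  exact G.isSymm_adjMatrix

theorem trace_conj {V : Type*} [Fintype V] [DecidableEq V]
    (U : Matrix.unitaryGroup V ℝ) (D : Matrix V V ℝ) :
    (Unitary.conjStarAlgAut ℝ (Matrix V V ℝ) U D).trace = D.trace := by
  rw [Unitary.conjStarAlgAut_apply, Matrix.trace_mul_cycle]
  simp

theorem trace_sq {V : Type*} [Fintype V] [DecidableEq V] {M : Matrix V V ℝ} (h : M.IsHermitian) :
    (M * M).trace = ∑ i, h.eigenvalues i ^ 2 := by
  set D : Matrix V V ℝ := Matrix.diagonal (h.eigenvalues) with hD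
  have hM : M = Unitary.conjStarAlgAut ℝ (Matrix V V ℝ) h.eigenvectorUnitary D :=
    h.spectral_theorem
  have h2 : M * M = Unitary.conjStarAlgAut ℝ (Matrix V V ℝ) h.eigenvectorUnitary (D * D) := by
    rw [map_mul, ← hM]
  rw [h2, trace_conj, hD, Matrix.diagonal_mul_diagonal, Matrix.trace_diagonal]
  exact Finset.sum_congr rfl fun i _ => (pow_two _).symm

variable {V : Type*} [Fintype V] [DecidableEq V] {G : SimpleGraph V} [DecidableRel G.Adj] {k : ℕ}
  {v : ℕ → V} {p : V → V} {d : V → ℕ}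

theorem det_eigs (G : SimpleGraph V) [DecidableRel G.Adj] (z : ℂ) :
    (z • (1 : Matrix V V ℂ) - G.adjMatrix ℂ).det = ∏ i, (z - ((adj_herm G).eigenvalues i : ℂ)) := by
  have h1 : G.adjMatrix ℂ = (G.adjMatrix ℝ).map (algebraMap ℝ ℂ) := by
    ext i j
    simp only [SimpleGraph.adjMatrix_apply, Matrix.map_apply]
    split_ifs <;> simp
  have h2 : (z • (1 : Matrix V V ℂ) - G.adjMatrix ℂ) = Matrix.scalar V z - G.adjMatrix ℂ := by
    rw [Matrix.smul_one_eq_diagonal]; rfl
  rw [h2, ← Matrix.eval_charpoly, h1, Matrix.charpoly_map, (adj_herm G).charpoly_eq,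
    Polynomial.map_prod, Polynomial.eval_prod]
  refine Finset.prod_congr rfl fun i _ => ?_
  simp

theorem sum_eigs (G : SimpleGraph V) [DecidableRel G.Adj] : ∑ i, (adj_herm G).eigenvalues i = 0 := by
  have h := (adj_herm G).trace_eq_sum_eigenvalues
  have h0 : (G.adjMatrix ℝ).trace = 0 := SimpleGraph.trace_adjMatrix ℝ G
  rw [h0] at h
  simpa using h.symm

theorem sum_sq_eigs (G : SimpleGraph V) [DecidableRel G.Adj] :
    ∑ i, (adj_herm G).eigenvalues i ^ 2 = 2 * G.edgeSet.ncard := by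
  rw [← trace_sq (adj_herm G), Matrix.trace]
  simp only [Matrix.diag_apply, SimpleGraph.adjMatrix_mul_self_apply_self]
  have h1 := G.sum_degrees_eq_twice_card_edges
  have h2 : G.edgeSet.ncard = G.edgeFinset.card := by
    rw [← SimpleGraph.coe_edgeFinset, Set.ncard_coe_finset]
  rw [h2]
  exact_mod_cast h1

theorem card_zero (h : Uni G k v p d) : (univ.filter fun x => d x = 0).card = k := by
  have : (univ.filter fun x => d x = 0) = (range k).image v := by
    ext x
    simp only [mem_filter, mem_univ, true_and, mem_image, mem_range]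
    rw [h.d0]
  rw [this, Finset.card_image_of_injOn, card_range]
  intro i hi j hj hij
  rw [coe_range, Set.mem_Iio] at hi hj
  exact h.inj i hi j hj hij

theorem card_nonzero (h : Uni G k v p d) : k + (univ.filter fun x => ¬ d x = 0).card = Fintype.card V := by
  have hsplit := Finset.card_filter_add_card_filter_not (s := (univ : Finset V)) (fun x => d x = 0)
  rw [card_zero h, card_univ] at hsplit
  exact hsplit

/-- `+1` or `-1` -/
noncomputable def sg (k : ℕ) : ℝ := if k % 4 = 1 then 1 else -1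

theorem I_pow_sg {k : ℕ} (hk : Odd k) : Complex.I ^ k = (sg k : ℂ) * Complex.I := by
  have hI4 : Complex.I ^ 4 = 1 := Complex.I_pow_four
  have h1 : k % 4 = 1 ∨ k % 4 = 3 := by
    obtain ⟨m, hm⟩ := hk
    omega
  have h2 : Complex.I ^ k = Complex.I ^ (k % 4) := by
    conv_lhs => rw [← Nat.div_add_mod k 4, pow_add, pow_mul, hI4, one_pow, one_mul]
  rw [h2]
  rcases h1 with h1 | h1
  · rw [h1, sg, if_pos h1]
    simp
  · rw [h1, sg, if_neg (by omega)]
    rw [Complex.I_pow_three]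
    simp

theorem sg_sq (k : ℕ) : sg k * sg k = 1 := by
  unfold sg
  split_ifs <;> norm_num

/-- the trace of the transfer matrices -/
noncomputable def muw (w : V → ℝ) (v : ℕ → V) (k : ℕ) : ℝ :=
  PR (fun j => w (v j)) k 0 0 + PR (fun j => w (v j)) k 1 1

theorem prod_eq (h : Uni G k v p d) (hk : Odd k) {t : ℝ} (ht : 0 < t) {w : V → ℝ}
    (hw : ∀ x, w x = t + ∑ u ∈ ch p d x, (w u)⁻¹) :
    ∏ i, ((t : ℂ) + Complex.I * (adj_herm G).eigenvalues i) =
      ((∏ x : {x : V // ¬ d x = 0}, w x : ℝ) : ℂ) *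
        ((muw w v k : ℂ) + 2 * (sg k : ℂ) * Complex.I) := by
  have h1 : ((Complex.I * t) • (1 : Matrix V V ℂ) - G.adjMatrix ℂ).det =
      (Complex.I ^ k * ((PR (fun j => w (v j)) k 0 0 + PR (fun j => w (v j)) k 1 1 : ℝ) : ℂ) - 2) *
        ∏ x : {x : V // ¬ d x = 0}, (Complex.I * (w x : ℂ)) := by
    have e : @SimpleGraph.adjMatrix ℂ V G (fun a b => Classical.propDecidable (G.Adj a b)) _ _ =
        G.adjMatrix ℂ := by
      ext a b
      rw [SimpleGraph.adjMatrix_apply, SimpleGraph.adjMatrix_apply]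
      by_cases hab : G.Adj a b
      · rw [if_pos hab, if_pos hab]
      · rw [if_neg hab, if_neg hab]
    rw [← e]
    exact det_adj h ht hw
  rw [det_eigs] at h1
  have h2 : ∏ i, (Complex.I * (t : ℂ) - ((adj_herm G).eigenvalues i : ℂ)) =
      Complex.I ^ Fintype.card V * ∏ i, ((t : ℂ) + Complex.I * (adj_herm G).eigenvalues i) := by
    rw [← Finset.card_univ, ← Finset.prod_const, ← Finset.prod_mul_distrib]
    refine Finset.prod_congr rfl fun i _ => ?_
    rw [mul_add, ← mul_assoc, Complex.I_mul_I]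
    ring
  have hcard : Fintype.card {x : V // ¬ d x = 0} = (univ.filter fun x => ¬ d x = 0).card :=
    Fintype.card_subtype _
  have h3 : ∏ x : {x : V // ¬ d x = 0}, (Complex.I * (w x : ℂ)) =
      Complex.I ^ (univ.filter fun x => ¬ d x = 0).card *
        ((∏ x : {x : V // ¬ d x = 0}, w x : ℝ) : ℂ) := by
    rw [Finset.prod_mul_distrib, Finset.prod_const, Finset.card_univ, hcard]
    push_cast
    rfl
  have h4 : (Complex.I ^ k * ((PR (fun j => w (v j)) k 0 0 + PR (fun j => w (v j)) k 1 1 : ℝ) : ℂ) - 2) =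
      Complex.I ^ k * ((muw w v k : ℂ) + 2 * (sg k : ℂ) * Complex.I) := by
    have h5 := I_pow_sg hk
    have h6 : (sg k : ℂ) * (sg k : ℂ) = 1 := by exact_mod_cast sg_sq k
    unfold muw
    have h7 : Complex.I ^ k * (2 * (sg k : ℂ) * Complex.I) = -2 := by
      rw [h5]
      linear_combination (2 * Complex.I * Complex.I) * h6 + 2 * Complex.I_mul_I
    rw [mul_add, h7]
    ring
  rw [h2, h3, h4] at h1
  have h5 : Complex.I ^ Fintype.card V ≠ 0 := pow_ne_zero _ Complex.I_ne_zero
  apply mul_left_cancel₀ h5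
  rw [h1]
  have h6 := card_nonzero h
  rw [← h6, pow_add]
  ring

/-- the sum of the arctangents -/
theorem sum_arctan (h : Uni G k v p d) (hk : Odd k) (w : ℝ → V → ℝ)
    (hw : ∀ t : ℝ, 0 < t → ∀ x, w t x = t + ∑ u ∈ ch p d x, (w t u)⁻¹) {t : ℝ} (ht : 0 < t) :
    0 < muw (w t) v k ∧
    ∑ i, Real.arctan ((adj_herm G).eigenvalues i / t) = Real.arctan (2 * sg k / muw (w t) v k) := by
  have hpos : ∀ t : ℝ, 0 < t → ∀ x, t ≤ w t x := fun t ht => wt_ge ht h.dp (hw t ht)
  have hmu : ∀ t : ℝ, 0 < t → 0 < muw (w t) v k := by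
    intro t ht
    have h1 : Le (PR (fun _ => t) k) (PR (fun j => w t (v j)) k) :=
      PR_le fun j _ => ⟨ht.le, hpos t ht _⟩
    rw [PR_const] at h1
    have hk1 : ∃ r, k = 1 + 2 * r := by
      obtain ⟨r, hr⟩ := hk
      exact ⟨r, by omega⟩
    obtain ⟨r, hr⟩ := hk1
    have h2 : Le (R t ^ 1) (R t ^ k) := by rw [hr]; exact R_pow_mono ht.le 1 r
    have h3 := h2.trans' h1
    have h4 := (h3 0 0).2
    have h5 := (h3 1 1).2
    rw [pow_one] at h4 h5
    have e1 : (R t) 0 0 = t := rfl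
    have e2 : (R t) 1 1 = 0 := rfl
    rw [e1] at h4
    rw [e2] at h5
    unfold muw
    linarith
  refine ⟨hmu t ht, ?_⟩
  refine angle (fun i => (adj_herm G).eigenvalues i) (fun t => muw (w t) v k)
    (fun t => ∏ x : {x : V // ¬ d x = 0}, w t x) (sg k) hmu ?_ ?_ t ht
  · intro t ht
    exact Finset.prod_pos fun x _ => ht.trans_le (hpos t ht _)
  · intro t ht
    exact prod_eq h hk ht (hw t ht)

end Pool.Agent.Q105.SqE
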