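import Pool.Agent.Q105.SqE.Spec

/-!
The graph `H_n^k`, and the comparison.
-/

namespace Pool.Agent.Q105.SqE

open Finset

section edges

variable {V : Type*} [Fintype V] {G : SimpleGraph V} {k : ℕ} {v : ℕ → V} {p : V → V} {d : V → ℕ}

theorem uni_edges (h : Uni G k v p d) : G.edgeSet.ncard = Fintype.card V := by
  classical
  have hk3 := h.hk
  let nx : ℕ → ℕ := fun i => if i + 1 = k then 0 else i + 1
  have hnx : ∀ i < k, nx i < k := by
    intro i hi
    simp only [nx]
    split_ifs <;> omega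
  let Ec : Finset (Sym2 V) := (range k).image fun i => s(v i, v (nx i))
  let Et : Finset (Sym2 V) := (univ.filter fun x => d x ≠ 0).image fun x => s(x, p x)
  have hv1 : ∀ i < k, d (v i) = 0 := fun i hi => (h.d0 _).2 ⟨i, hi, rfl⟩
  have hEc : Ec.card = k := by
    rw [Finset.card_image_of_injOn, card_range]
    intro i hi j hj hij
    rw [coe_range, Set.mem_Iio] at hi hj
    simp only [Sym2.eq_iff] at hij
    rcases hij with ⟨h1, -⟩ | ⟨h1, h2⟩
    · exact h.inj i hi j hj h1
    · exfalso
      have e1 := h.inj i hi _ (hnx j hj) h1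
      have e2 := h.inj _ (hnx i hi) j hj h2
      simp only [nx] at e1 e2
      split_ifs at e1 e2 <;> omega
  have hEt : Et.card = (univ.filter fun x => d x ≠ 0).card := by
    apply Finset.card_image_of_injOn
    intro x hx y hy hxy
    rw [coe_filter, Set.mem_ofPred] at hx hy
    simp only [Sym2.eq_iff] at hxy
    rcases hxy with ⟨h1, -⟩ | ⟨h1, h2⟩
    · exact h1
    · exfalso
      have h3 := h.dp x hx.2
      have h4 := h.dp y hy.2
      rw [h2] at h3
      rw [← h1] at h4
      omega
  have hdisj : Disjoint Ec Et := by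
    rw [Finset.disjoint_left]
    intro e he1 he2
    simp only [Ec, Et, mem_image, mem_range, mem_filter, mem_univ, true_and] at he1 he2
    obtain ⟨i, hi, rfl⟩ := he1
    obtain ⟨x, hx, hxe⟩ := he2
    rw [Sym2.eq_iff] at hxe
    rcases hxe with ⟨h1, -⟩ | ⟨h1, -⟩
    · rw [h1] at hx; exact hx (hv1 i hi)
    · rw [h1] at hx; exact hx (hv1 _ (hnx i hi))
  have heq : G.edgeSet = ((Ec ∪ Et : Finset (Sym2 V)) : Set (Sym2 V)) := by
    ext e
    induction e using Sym2.ind with
    | _ x y =>
      rw [SimpleGraph.mem_edgeSet, mem_coe, mem_union]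
      simp only [Ec, Et, mem_image, mem_range, mem_filter, mem_univ, true_and, Sym2.eq_iff]
      constructor
      · intro hxy
        by_cases hd : d x = 0 ∧ d y = 0
        · left
          obtain ⟨i, hi, rfl⟩ := (h.d0 x).1 hd.1
          obtain ⟨j, hj, rfl⟩ := (h.d0 y).1 hd.2
          rcases (h.cyc i hi j hj).1 hxy with h2 | h2 | ⟨h2, h3⟩ | ⟨h2, h3⟩
          · refine ⟨i, hi, Or.inl ⟨rfl, ?_⟩⟩
            simp only [nx]; rw [if_neg (by omega), h2]
          · refine ⟨j, hj, Or.inr ⟨rfl, ?_⟩⟩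
            simp only [nx]; rw [if_neg (by omega), h2]
          · refine ⟨j, hj, Or.inr ⟨rfl, ?_⟩⟩
            simp only [nx]; rw [if_pos h3, h2]
          · refine ⟨i, hi, Or.inl ⟨rfl, ?_⟩⟩
            simp only [nx]; rw [if_pos h3, h2]
        · right
          rcases (h.tree x y hd).1 hxy with ⟨h1, h2⟩ | ⟨h1, h2⟩
          · exact ⟨x, h1, Or.inl ⟨rfl, h2⟩⟩
          · exact ⟨y, h1, Or.inr ⟨rfl, h2⟩⟩
      · have key : ∀ i < k, G.Adj (v i) (v (nx i)) := by
          intro i hi
          rw [h.cyc i hi _ (hnx i hi)]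
          simp only [nx]
          split_ifs with hc
          · exact Or.inr (Or.inr (Or.inr ⟨rfl, hc⟩))
          · exact Or.inl rfl
        have key2 : ∀ z, d z ≠ 0 → G.Adj z (p z) := by
          intro z hz
          rw [h.tree z (p z) (fun hh => hz hh.1)]
          exact Or.inl ⟨hz, rfl⟩
        rintro (⟨i, hi, ⟨rfl, rfl⟩ | ⟨rfl, rfl⟩⟩ | ⟨z, hz, ⟨rfl, rfl⟩ | ⟨rfl, rfl⟩⟩)
        · exact key i hi
        · exact (key i hi).symm
        · exact key2 _ hz
        · exact (key2 _ hz).symm
  rw [heq, Set.ncard_coe_finset, Finset.card_union_of_disjoint hdisj, hEc, hEt]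
  exact card_nonzero h

/-- a heavy vertex on the cycle -/
theorem heavy [DecidableEq V] (h : Uni G k v p d) {t : ℝ} (ht : 0 < t) {w : V → ℝ}
    (hw : ∀ x, w x = t + ∑ u ∈ ch p d x, (w u)⁻¹) (hlt : k < Fintype.card V) :
    ∃ j < k, t + t / (t ^ 2 + ((Fintype.card V : ℝ) - k - 1)) ≤ w (v j) := by
  let _ : DecidableRel G.Adj := Classical.decRel _
  have hge := wt_ge ht h.dp hw
  have hcard := card_nonzero h
  -- a vertex with its parent on the cycle
  have hex : ∀ m x, d x = m + 1 → ∃ u, d u ≠ 0 ∧ d (p u) = 0 := by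
    intro m
    induction m with
    | zero =>
      intro x hx
      refine ⟨x, by omega, ?_⟩
      have := h.dp x (by omega)
      omega
    | succ m ih =>
      intro x hx
      have := h.dp x (by omega)
      exact ih (p x) (by omega)
  have hne : ∃ x, d x ≠ 0 := by
    by_contra hcon
    push Not at hcon
    have : (univ.filter fun x => ¬ d x = 0) = (∅ : Finset V) := by
      rw [Finset.eq_empty_iff_forall_notMem]
      intro x hx
      rw [mem_filter] at hx
      exact hx.2 (hcon x)
    rw [this, card_empty] at hcard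
    omega
  obtain ⟨x, hx⟩ := hne
  obtain ⟨u, hu, hpu⟩ := hex (d x - 1) x (by omega)
  obtain ⟨j, hj, hvj⟩ := (h.d0 _).1 hpu
  refine ⟨j, hj, ?_⟩
  have h1 : (w u)⁻¹ ≤ ∑ u ∈ ch p d (v j), (w u)⁻¹ := by
    refine Finset.single_le_sum (f := fun u => (w u)⁻¹) (fun z _ => ?_) (mem_ch.2 ⟨hu, hvj.symm⟩)
    exact inv_nonneg.2 (ht.le.trans (hge z))
  have hsub : (ch p d u) ⊆ (univ.filter fun x => ¬ d x = 0).erase u := by
    intro z hz
    rw [mem_ch] at hz
    rw [mem_erase, mem_filter]
    refine ⟨?_, mem_univ _, hz.1⟩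
    rintro rfl
    have := h.dp z hz.1
    rw [hz.2] at this
    omega
  have hc1 := Finset.card_le_card hsub
  rw [Finset.card_erase_of_mem (by rw [mem_filter]; exact ⟨mem_univ _, hu⟩)] at hc1
  have hc2 : ((ch p d u).card : ℝ) ≤ (Fintype.card V : ℝ) - k - 1 := by
    have h4 : (ch p d u).card + k + 1 ≤ Fintype.card V := by omega
    have h5 : ((ch p d u).card : ℝ) + k + 1 ≤ Fintype.card V := by exact_mod_cast h4
    linarith
  have h2 : w u ≤ t + ((Fintype.card V : ℝ) - k - 1) / t := by
    rw [hw u]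
    have h3 : ∑ z ∈ ch p d u, (w z)⁻¹ ≤ ∑ _z ∈ ch p d u, t⁻¹ :=
      Finset.sum_le_sum fun z _ => inv_anti₀ ht (hge z)
    rw [Finset.sum_const, nsmul_eq_mul] at h3
    have h6 : ((ch p d u).card : ℝ) * t⁻¹ ≤ ((Fintype.card V : ℝ) - k - 1) / t := by
      rw [div_eq_mul_inv]
      exact mul_le_mul_of_nonneg_right hc2 (inv_nonneg.2 ht.le)
    linarith
  have hN0 : 0 ≤ (Fintype.card V : ℝ) - k - 1 := (Nat.cast_nonneg _).trans hc2
  have hu0 : 0 < w u := ht.trans_le (hge u)
  have h3 : t / (t ^ 2 + ((Fintype.card V : ℝ) - k - 1)) ≤ (w u)⁻¹ := by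
    have e : t / (t ^ 2 + ((Fintype.card V : ℝ) - k - 1)) =
        (t + ((Fintype.card V : ℝ) - k - 1) / t)⁻¹ := by
      rw [← one_div, div_eq_div_iff (by positivity) (by positivity)]
      field_simp
    rw [e]
    exact inv_anti₀ hu0 h2
  rw [hw (v j)]
  linarith

end edges

/-- the edges of `H_n^k`: the cycle `0, ..., k-1`, the edge `0 k` and the edges `k j`, `j > k` -/
def HRel (k i j : ℕ) : Prop :=
  (i + 1 = j ∧ j < k) ∨ (i = 0 ∧ j + 1 = k) ∨ (i = 0 ∧ j = k) ∨ (i = k ∧ k < j)

/-- the graph `H_n^k` -/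
def H (n k : ℕ) : SimpleGraph (Fin n) := SimpleGraph.fromRel fun i j => HRel k i j

theorem uni_H {n k : ℕ} (hk : 3 ≤ k) (hn : k + 1 ≤ n) :
    Uni (H n k) k (fun i => if h : i < n then (⟨i, h⟩ : Fin n) else ⟨0, by omega⟩)
      (fun x => if x.val = k then (⟨0, by omega⟩ : Fin n) else ⟨k, by omega⟩)
      (fun x => if x.val < k then 0 else if x.val = k then 1 else 2) where
  hk := hk
  inj := by
    intro i hi j hj hij
    rw [dif_pos (by omega), dif_pos (by omega)] at hij
    exact congrArg Fin.val hij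
  cyc := by
    intro i hi j hj
    rw [dif_pos (by omega), dif_pos (by omega)]
    simp only [H, SimpleGraph.fromRel_adj, HRel, ne_eq, Fin.mk.injEq]
    omega
  d0 := by
    intro x
    constructor
    · intro h
      have hx : x.val < k := by
        by_contra hcon
        rw [if_neg hcon] at h
        split_ifs at h
      refine ⟨x, hx, ?_⟩
      rw [dif_pos x.2]
    · rintro ⟨i, hi, rfl⟩
      rw [dif_pos (by omega)]
      simp [hi]
  dp := by
    intro x hx
    have hx' : ¬ (x.val < k) := by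
      intro hcon
      rw [if_pos hcon] at hx
      exact hx rfl
    split_ifs with h1 h2 h3 h4 h5 <;> simp_all <;> omega
  tree := by
    intro x y hxy
    simp only [H, SimpleGraph.fromRel_adj, HRel, ne_eq, Fin.ext_iff]
    have e : ∀ z : Fin n, (if z.val < k then 0 else if z.val = k then 1 else 2) = 0 ↔ z.val < k := by
      intro z
      split_ifs <;> simp_all
    rw [e, e] at hxy
    rw [e, e]
    have e2 : ∀ z : Fin n, ((if z.val = k then (⟨0, by omega⟩ : Fin n) else ⟨k, by omega⟩) : Fin n).val =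
        if z.val = k then 0 else k := by
      intro z
      split_ifs <;> rfl
    rw [e2, e2]
    split_ifs <;> omega

end Pool.Agent.Q105.SqE
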