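import Pool.Agent.Q105.SqE.Cyc

/-!
Elimination of the trees of a unicyclic graph.
-/

namespace Pool.Agent.Q105.SqE

open Matrix Complex Finset

/-- `G` is the cycle `v 0, ..., v (k-1)` with trees: every `x` with `d x ≠ 0` has the parent `p x` -/
structure Uni {V : Type*} (G : SimpleGraph V) (k : ℕ) (v : ℕ → V) (p : V → V) (d : V → ℕ) :
    Prop where
  hk : 3 ≤ k
  inj : ∀ i < k, ∀ j < k, v i = v j → i = j
  cyc : ∀ i < k, ∀ j < k, (G.Adj (v i) (v j) ↔
    (i + 1 = j ∨ j + 1 = i ∨ (i = 0 ∧ j + 1 = k) ∨ (j = 0 ∧ i + 1 = k)))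
  d0 : ∀ x, d x = 0 ↔ ∃ i < k, v i = x
  dp : ∀ x, d x ≠ 0 → d (p x) + 1 = d x
  tree : ∀ x y, ¬ (d x = 0 ∧ d y = 0) →
    (G.Adj x y ↔ (d x ≠ 0 ∧ p x = y) ∨ (d y ≠ 0 ∧ p y = x))

variable {V : Type*} [Fintype V] [DecidableEq V] {G : SimpleGraph V} {k : ℕ} {v : ℕ → V}
  {p : V → V} {d : V → ℕ}

/-- children -/
def ch (p : V → V) (d : V → ℕ) (x : V) : Finset V := univ.filter fun u => d u ≠ 0 ∧ p u = x

theorem mem_ch {x u : V} : u ∈ ch p d x ↔ d u ≠ 0 ∧ p u = x := by simp [ch]

/-- iterated weights -/
noncomputable def wt (p : V → V) (d : V → ℕ) (t : ℝ) : ℕ → V → ℝ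
  | 0 => fun _ => t
  | m + 1 => fun x => t + ∑ u ∈ ch p d x, (wt p d t m u)⁻¹

theorem exists_wt (hdp : ∀ x, d x ≠ 0 → d (p x) + 1 = d x) (t : ℝ) :
    ∃ w : V → ℝ, ∀ x, w x = t + ∑ u ∈ ch p d x, (w u)⁻¹ := by
  set D := univ.sup d with hD
  have hle : ∀ x, d x ≤ D := fun x => Finset.le_sup (f := d) (mem_univ x)
  have key : ∀ m x, D ≤ m + d x → wt p d t (m + 1) x = wt p d t m x := by
    intro m
    induction m with
    | zero =>
      intro x hx
      have : ch p d x = ∅ := by
        rw [Finset.eq_empty_iff_forall_notMem]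
        intro u hu
        rw [mem_ch] at hu
        have h1 := hdp u hu.1
        have h2 := hle u
        rw [hu.2] at h1
        omega
      simp [wt, this]
    | succ m ih =>
      intro x hx
      change t + ∑ u ∈ ch p d x, (wt p d t (m + 1) u)⁻¹ = t + ∑ u ∈ ch p d x, (wt p d t m u)⁻¹
      congr 1
      refine Finset.sum_congr rfl fun u hu => ?_
      rw [mem_ch] at hu
      have h1 := hdp u hu.1
      rw [hu.2] at h1
      rw [ih u (by omega)]
  refine ⟨wt p d t D, fun x => ?_⟩
  rw [← key D x (by omega)]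
  rfl

theorem wt_ge {t : ℝ} (ht : 0 < t) (hdp : ∀ x, d x ≠ 0 → d (p x) + 1 = d x) {w : V → ℝ}
    (hw : ∀ x, w x = t + ∑ u ∈ ch p d x, (w u)⁻¹) : ∀ x, t ≤ w x := by
  set D := univ.sup d with hD
  have hle : ∀ x, d x ≤ D := fun x => Finset.le_sup (f := d) (mem_univ x)
  have key : ∀ m x, D ≤ m + d x → t ≤ w x := by
    intro m
    induction m with
    | zero =>
      intro x hx
      have : ch p d x = ∅ := by
        rw [Finset.eq_empty_iff_forall_notMem]
        intro u hu
        rw [mem_ch] at hu
        have h1 := hdp u hu.1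
        have h2 := hle u
        rw [hu.2] at h1
        omega
      rw [hw x, this]
      simp
    | succ m ih =>
      intro x hx
      rw [hw x]
      have : 0 ≤ ∑ u ∈ ch p d x, (w u)⁻¹ := by
        refine Finset.sum_nonneg fun u hu => ?_
        rw [mem_ch] at hu
        have h1 := hdp u hu.1
        rw [hu.2] at h1
        have h2 := ih u (by omega)
        exact inv_nonneg.2 (ht.le.trans h2)
      linarith
  exact fun x => key D x (by omega)

section det

variable (h : Uni G k v p d) {t : ℝ} (ht : 0 < t) {w : V → ℝ}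
    (hw : ∀ x, w x = t + ∑ u ∈ ch p d x, (w u)⁻¹)

include h ht hw

open scoped Classical in
theorem det_adj :
    ((I * t) • (1 : Matrix V V ℂ) - G.adjMatrix ℂ).det =
      (I ^ k * ((PR (fun j => w (v j)) k 0 0 + PR (fun j => w (v j)) k 1 1 : ℝ) : ℂ) - 2) *
        ∏ x : {x : V // ¬ d x = 0}, (I * (w x : ℂ)) := by
  have hpos : ∀ x, 0 < w x := fun x => ht.trans_le (wt_ge ht h.dp hw x)
  have hne : ∀ x, (I * (w x : ℂ)) ≠ 0 := fun x =>
    mul_ne_zero I_ne_zero (by exact_mod_cast (hpos x).ne')
  let K : Matrix V V ℂ := Matrix.of fun x y => if d y ≠ 0 ∧ p y = x then (I * (w y : ℂ))⁻¹ else 0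
  let L : Matrix V V ℂ := Matrix.of fun x y => if d y ≠ 0 ∧ p y = x then 1 else 0
  let B : Matrix V V ℂ := Matrix.of fun x y => if x = y then I * (w x : ℂ) else
    if d x = 0 ∧ d y = 0 ∧ G.Adj x y then -1 else 0
  have hBs : Bᵀ = B := by
    ext x y
    simp only [B, Matrix.transpose_apply, Matrix.of_apply]
    by_cases hxy : x = y
    · subst hxy; simp
    · rw [if_neg hxy, if_neg (Ne.symm hxy)]
      have : (d y = 0 ∧ d x = 0 ∧ G.Adj y x) ↔ (d x = 0 ∧ d y = 0 ∧ G.Adj x y) := by
        rw [G.adj_comm]; tauto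
      simp only [this]
  have hKB : K * B = L := by
    ext x y
    rw [Matrix.mul_apply, Finset.sum_eq_single y]
    · simp only [K, B, L, Matrix.of_apply, if_true]
      split_ifs with hc
      · exact inv_mul_cancel₀ (hne y)
      · rw [zero_mul]
    · intro u _ huy
      simp only [K, B, Matrix.of_apply, if_neg huy]
      by_cases hc : d u ≠ 0 ∧ p u = x
      · have : ¬ (d u = 0 ∧ d y = 0 ∧ G.Adj u y) := fun hh => hc.1 hh.1
        rw [if_neg this, mul_zero]
      · rw [if_neg hc, zero_mul]
    · intro hy; exact absurd (mem_univ y) hy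
  have hBK : B * Kᵀ = Lᵀ := by
    rw [← hKB, Matrix.transpose_mul, hBs]
  have hLK : L * Kᵀ = Matrix.diagonal fun x => ∑ u ∈ ch p d x, (I * (w u : ℂ))⁻¹ := by
    ext x y
    rw [Matrix.mul_apply, Matrix.diagonal_apply]
    by_cases hxy : x = y
    · subst hxy
      rw [if_pos rfl, ch, Finset.sum_filter]
      refine Finset.sum_congr rfl fun u _ => ?_
      simp only [L, K, Matrix.transpose_apply, Matrix.of_apply]
      split_ifs <;> simp
    · rw [if_neg hxy]
      refine Finset.sum_eq_zero fun u _ => ?_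
      simp only [L, K, Matrix.transpose_apply, Matrix.of_apply]
      by_cases hc : d u ≠ 0 ∧ p u = x
      · have : ¬ (d u ≠ 0 ∧ p u = y) := fun hh => hxy (hc.2.symm.trans hh.2)
        rw [if_neg this, mul_zero]
      · rw [if_neg hc, zero_mul]
  have hfac : (1 - K) * B * (1 - K)ᵀ = (I * t) • (1 : Matrix V V ℂ) - G.adjMatrix ℂ := by
    have e1 : (1 - K) * B * (1 - K)ᵀ = B - L - Lᵀ + L * Kᵀ := by
      rw [Matrix.transpose_sub, Matrix.transpose_one, Matrix.sub_mul, Matrix.one_mul, hKB,
        Matrix.mul_sub, Matrix.mul_one, Matrix.sub_mul, hBK]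
      abel
    rw [e1, hLK]
    ext x y
    simp only [Matrix.add_apply, Matrix.sub_apply, Matrix.smul_apply, Matrix.transpose_apply,
      Matrix.diagonal_apply, SimpleGraph.adjMatrix_apply, Matrix.one_apply, smul_eq_mul]
    by_cases hxy : x = y
    · subst hxy
      have hL : L x x = 0 := by
        simp only [L, Matrix.of_apply]
        rw [if_neg]
        rintro ⟨h1, h2⟩
        have := h.dp x h1
        rw [h2] at this
        omega
      have hB : B x x = I * (w x : ℂ) := by simp [B]
      rw [hL, hB]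
      simp only [if_true, SimpleGraph.irrefl, if_false, mul_one, sub_zero]
      have e2 : ∑ u ∈ ch p d x, (I * (w u : ℂ))⁻¹ = -I * ((∑ u ∈ ch p d x, (w u)⁻¹ : ℝ) : ℂ) := by
        push_cast
        rw [Finset.mul_sum]
        refine Finset.sum_congr rfl fun u _ => ?_
        rw [mul_inv, Complex.inv_I]
      have e3 : (w x : ℂ) = t + ((∑ u ∈ ch p d x, (w u)⁻¹ : ℝ) : ℂ) := by
        rw [hw x]; push_cast; rfl
      rw [e2, e3]
      ring
    · simp only [if_neg hxy, mul_zero, zero_sub, add_zero]
      by_cases hd : d x = 0 ∧ d y = 0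
      · have hL1 : L x y = 0 := by simp [L, hd.2]
        have hL2 : L y x = 0 := by simp [L, hd.1]
        have hB : B x y = if G.Adj x y then -1 else 0 := by
          simp [B, if_neg hxy, hd.1, hd.2]
        rw [hL1, hL2, hB]
        split_ifs <;> simp
      · have hB : B x y = 0 := by
          simp only [B, Matrix.of_apply, if_neg hxy]
          rw [if_neg]
          tauto
        have ht := h.tree x y hd
        rw [hB]
        simp only [L, Matrix.of_apply]
        by_cases hc1 : d y ≠ 0 ∧ p y = x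
        · have hc2 : ¬ (d x ≠ 0 ∧ p x = y) := by
            rintro ⟨h1, h2⟩
            have h3 := h.dp x h1
            have h4 := h.dp y hc1.1
            rw [h2] at h3
            rw [hc1.2] at h4
            omega
          rw [if_pos hc1, if_neg hc2, if_pos (ht.2 (Or.inr hc1))]
          simp
        · by_cases hc2 : d x ≠ 0 ∧ p x = y
          · rw [if_neg hc1, if_pos hc2, if_pos (ht.2 (Or.inl hc2))]
            simp
          · rw [if_neg hc1, if_neg hc2, if_neg (fun hh => (ht.1 hh).elim hc2 hc1)]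
            simp
  have hN : (1 - K).det = 1 := by
    have hbt : BlockTriangular (1 - K) d := by
      intro x y hxy
      have hne' : x ≠ y := fun hh => by rw [hh] at hxy; omega
      simp only [Matrix.sub_apply, Matrix.one_apply, if_neg hne', K, Matrix.of_apply]
      rw [if_neg, sub_zero]
      rintro ⟨h1, h2⟩
      have := h.dp y h1
      rw [h2] at this
      omega
    rw [hbt.det]
    refine Finset.prod_eq_one fun a _ => ?_
    have : (1 - K).toSquareBlock d a = 1 := by
      ext x y
      simp only [Matrix.toSquareBlock_def, Matrix.of_apply, Matrix.sub_apply, Matrix.one_apply, K,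
        Subtype.ext_iff]
      have hz : (if d (y : V) ≠ 0 ∧ p (y : V) = (x : V) then (I * (w y : ℂ))⁻¹ else 0) = (0 : ℂ) := by
        rw [if_neg]
        rintro ⟨h1, h2⟩
        have h3 := h.dp y.1 h1
        have hx := x.2
        have hy := y.2
        rw [h2] at h3
        omega
      rw [hz, sub_zero]
    rw [this, Matrix.det_one]
  rw [← hfac, Matrix.det_mul, Matrix.det_mul, Matrix.det_transpose, hN, one_mul, mul_one]
  rw [Matrix.twoBlockTriangular_det B (fun x => d x = 0)]
  · congr 1
    · -- the cycle block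
      let e : Fin k ≃ {x : V // d x = 0} := Equiv.ofBijective
        (fun j => ⟨v j, (h.d0 _).2 ⟨j, j.2, rfl⟩⟩) ⟨by
          intro i j hij
          have := congrArg Subtype.val hij
          exact Fin.ext (h.inj i i.2 j j.2 this), by
          rintro ⟨x, hx⟩
          obtain ⟨i, hi, rfl⟩ := (h.d0 x).1 hx
          exact ⟨⟨i, hi⟩, rfl⟩⟩
      rw [← det_cycle k h.hk (fun j => w (v j)) (fun j => hpos _),
        ← Matrix.det_submatrix_equiv_self e]
      congr 1
      ext i j
      have ei : ((e i : {x : V // d x = 0}) : V) = v i := rfl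
      have ej : ((e j : {x : V // d x = 0}) : V) = v j := rfl
      have hdi : d (v i) = 0 := (h.d0 _).2 ⟨i, i.2, rfl⟩
      have hdj : d (v j) = 0 := (h.d0 _).2 ⟨j, j.2, rfl⟩
      simp only [Matrix.submatrix_apply, Matrix.toSquareBlockProp_def, Matrix.of_apply, ei, ej, B,
        Cm, hdi, hdj, true_and]
      by_cases hij : i = j
      · subst hij; simp
      · have hij' : v i ≠ v j := fun hh => hij (Fin.ext (h.inj i i.2 j j.2 hh))
        rw [if_neg hij', if_neg hij]
        have hc := h.cyc i i.2 j j.2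
        by_cases hA : G.Adj (v i) (v j)
        · rw [if_pos hA]
          rcases hc.1 hA with h1 | h1 | h1
          · rw [if_pos (Or.inl h1)]
          · rw [if_pos (Or.inr h1)]
          · by_cases h2 : i.val + 1 = j.val ∨ j.val + 1 = i.val
            · rw [if_pos h2]
            · rw [if_neg h2, if_pos h1]
        · rw [if_neg hA, if_neg, if_neg]
          · exact fun hh => hA (hc.2 (Or.inr (Or.inr hh)))
          · exact fun hh => hA (hc.2 (hh.elim Or.inl fun h3 => Or.inr (Or.inl h3)))
    · have : B.toSquareBlockProp (fun x => ¬ d x = 0) =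
          Matrix.diagonal fun x : {x : V // ¬ d x = 0} => I * (w x : ℂ) := by
        ext x y
        simp only [Matrix.toSquareBlockProp_def, Matrix.of_apply, B, Matrix.diagonal_apply,
          Subtype.ext_iff]
        by_cases hxy : (x : V) = y
        · rw [if_pos hxy, if_pos hxy]
        · rw [if_neg hxy, if_neg hxy, if_neg]
          exact fun hh => x.2 hh.1
      rw [this, Matrix.det_diagonal]
  · intro x hx y hy
    have hxy : x ≠ y := fun hh => hx (hh ▸ hy)
    simp only [B, Matrix.of_apply, if_neg hxy]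
    rw [if_neg]
    exact fun hh => hx hh.1

end det

end Pool.Agent.Q105.SqE
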